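import Pool.Agent.N372.EN.Stm

/-!
Project EN (MP_4da6ae_lc): the assembly (EN/ASM). Author: helper427.
-/

set_option autoImplicit false

namespace Pool.Agent.N372.EN

/-- `gI` as a linear map -/
private noncomputable def gL : (Finset (Fin 4) → ℝ) →ₗ[ℝ] ℝ where
  toFun := gI
  map_add' h h' := by
    simp only [gI, Pi.add_apply]
    ring
  map_smul' r h := by
    simp only [gI, Pi.smul_apply, smul_eq_mul, RingHom.id_apply]
    ring

/-- `fI` as a linear map -/
private noncomputable def fL : (Finset (Fin 4) → ℝ) →ₗ[ℝ] ℝ where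
  toFun := fI
  map_add' h h' := by
    simp only [fI, Pi.add_apply]
    ring
  map_smul' r h := by
    simp only [fI, Pi.smul_apply, smul_eq_mul, RingHom.id_apply]
    ring

/-- the coefficients of a linear map -/
private noncomputable def co (Λ : (Finset (Fin 4) → ℝ) →ₗ[ℝ] ℝ) (S : Finset (Fin 4)) : ℝ :=
  Λ fun R => if S = R then 1 else 0

private lemma co_sum (Λ : (Finset (Fin 4) → ℝ) →ₗ[ℝ] ℝ) (h : Finset (Fin 4) → ℝ) :
    ∑ S, co Λ S * h S = Λ h := by
  rw [LinearMap.pi_apply_eq_sum_univ Λ h]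
  refine Finset.sum_congr rfl fun S _ => ?_
  rw [smul_eq_mul, mul_comm]
  rfl

/-- the coefficient vector -/
private noncomputable def cv (x y : ℝ) (S : Finset (Fin 4)) : ℝ :=
  co gL S * x - co fL S + co (LinearMap.proj {1}) S * y

private lemma cv_sum (x y : ℝ) (h : Finset (Fin 4) → ℝ) :
    ∑ S, cv x y S * h S = x * gI h + y * h {1} - fI h := by
  have h1 : ∀ S, cv x y S * h S = x * (co gL S * h S) + y * (co (LinearMap.proj {1}) S * h S) -
      co fL S * h S := by
    intro S
    unfold cv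
    ring
  rw [Finset.sum_congr rfl fun S _ => h1 S, Finset.sum_sub_distrib, Finset.sum_add_distrib,
    ← Finset.mul_sum, ← Finset.mul_sum, co_sum, co_sum, co_sum]
  rfl

/-- the substitution -/
private noncomputable def Sub : MvPolynomial (Finset (Fin 4)) ℝ →ₐ[ℝ] Polynomial (Polynomial ℝ) :=
  MvPolynomial.aeval fun S => Polynomial.C (Polynomial.C (co gL S) * Polynomial.X -
    Polynomial.C (co fL S)) + Polynomial.C (Polynomial.C (co (LinearMap.proj {1}) S)) *
    Polynomial.X

private lemma eval_Sub (x y : ℝ) (q : MvPolynomial (Finset (Fin 4)) ℝ) :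
    Polynomial.evalEval x y (Sub q) = MvPolynomial.eval (cv x y) q := by
  have h1 : (Polynomial.evalEvalRingHom x y).comp Sub.toRingHom =
      MvPolynomial.eval (cv x y) := by
    refine MvPolynomial.ringHom_ext (fun r => ?_) fun S => ?_
    · rw [RingHom.comp_apply, MvPolynomial.eval_C]
      have h2 : Sub.toRingHom (MvPolynomial.C r) =
          Polynomial.C (Polynomial.C r) := by
        show Sub (MvPolynomial.C r) = _
        rw [← MvPolynomial.algebraMap_eq, AlgHom.commutes]
        rfl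
      rw [h2]
      simp
    · rw [RingHom.comp_apply, MvPolynomial.eval_X]
      have h2 : Sub.toRingHom (MvPolynomial.X S) =
          Polynomial.C (Polynomial.C (co gL S) * Polynomial.X -
            Polynomial.C (co fL S)) + Polynomial.C (Polynomial.C (co (LinearMap.proj {1}) S)) *
            Polynomial.X := by
        show Sub (MvPolynomial.X S) = _
        rw [Sub, MvPolynomial.aeval_X]
      rw [h2]
      simp [cv]
  rw [← h1]
  rfl

private lemma hh_empty {N : ℕ} (p : Fin N → ℝ) (X : Fin 4 → Fin N → Fin N)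
    (h1 : ∑ ω, p ω = 1) : hh p X ∅ = 0 := by
  unfold hh
  simp [h1]

theorem asm (h1 : S_SEMI) (h2 : S_EX) (h3 : S_FAM) (h4 : S_MO) :
    ¬ (∀ k : ℕ, 4 ≤ k →
      ∃ (n m : ℕ) (f : Fin n → MvPolynomial (Finset (Fin k)) ℝ)
        (g : Fin n → Fin m → MvPolynomial (Finset (Fin k)) ℝ),
        ∀ c : Finset (Fin k) → ℝ,
          ((∀ (N : ℕ) (p : Fin N → ℝ) (X : Fin k → Fin N → Fin N),
              (∀ ω, 0 ≤ p ω) → ∑ ω, p ω = 1 →
                0 ≤ ∑ S : Finset (Fin k), c S *
                  (-∑ ω, p ω * Real.log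
                    (∑ ω', if (∀ i ∈ S, X i ω' = X i ω) then p ω' else 0))) ↔
            ∃ j, MvPolynomial.eval c (f j) = 0 ∧
              ∀ l, 0 < MvPolynomial.eval c (g j l))) := by
  intro hall
  obtain ⟨n, m, f, g, hc⟩ := hall 4 le_rfl
  have hkey : ∀ (N : ℕ) (p : Fin N → ℝ) (X : Fin 4 → Fin N → Fin N) (S : Finset (Fin 4)),
      hh p X S = -∑ ω, p ω * Real.log
        (∑ ω', if (∀ i ∈ S, X i ω' = X i ω) then p ω' else 0) := by
    intro N p X S
    unfold hh
    congr!
  have hnn : ∀ (N : ℕ) (p : Fin N → ℝ) (X : Fin 4 → Fin N → Fin N), (∀ ω, 0 ≤ p ω) →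
      ∑ ω, p ω = 1 → 0 ≤ hh p X {1} := by
    intro N p X hp hs
    rw [← hh_empty p X hs]
    exact h4 (Fin 4) (Fin N) (Fin N) p X ∅ {1} hp (Finset.empty_subset _)
  let W : ℝ → ℝ → Prop := fun x y => ∀ (N : ℕ) (p : Fin N → ℝ) (X : Fin 4 → Fin N → Fin N),
    (∀ ω, 0 ≤ p ω) → ∑ ω, p ω = 1 →
      0 ≤ x * gI (hh p X) + y * hh p X {1} - fI (hh p X)
  refine h1 n m (fun j => Sub (f j)) (fun j l => Sub (g j l)) W ?_ ?_ ?_ ?_
  · intro x y
    have h5 := hc (cv x y)
    simp only [eval_Sub]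
    rw [← h5]
    constructor
    · intro hW N p X hp hs
      have h6 := hW N p X hp hs
      rw [← cv_sum] at h6
      simp only [hkey] at h6
      exact h6
    · intro hW N p X hp hs
      rw [← cv_sum]
      simp only [hkey]
      exact hW N p X hp hs
  · intro x y y' hy hW N p X hp hs
    have h5 := hW N p X hp hs
    have h6 := mul_le_mul_of_nonneg_right hy (hnn N p X hp hs)
    linarith
  · intro s
    obtain ⟨p, X, hp, hs, hlt⟩ := h2 (3 * (s : ℝ) + 2)
    have hH := hnn 4 p X hp hs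
    obtain ⟨H, hHd⟩ : ∃ H, H = hh p X {1} := ⟨_, rfl⟩
    obtain ⟨η, hη⟩ : ∃ η, η = fI (hh p X) - (3 * (s : ℝ) + 2) * gI (hh p X) := ⟨_, rfl⟩
    have hη0 : 0 < η := by rw [hη]; linarith
    rw [← hHd] at hH
    refine ⟨η / (H + 1), by positivity, fun y hy hW => ?_⟩
    have h5 := hW 4 p X hp hs
    rw [← hHd] at h5
    have h6 : η / (H + 1) * (H + 1) = η := div_mul_cancel₀ _ (by positivity)
    have h7 : 0 < η / (H + 1) := by positivity
    have h8 : y * H ≤ η / (H + 1) * H := mul_le_mul_of_nonneg_right hy.le hH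
    linarith
  · intro s N p X hp hs
    have h5 := h3 (Fin N) (Fin N) p X hp hs s
    linarith

end Pool.Agent.N372.EN
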