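import Pool.Agent.N372.EN.Pure

/-!
Project EN: entropy of variables on products, laws, gluing step.
-/

set_option autoImplicit false

namespace Pool.Agent.N372.EN

variable {Ω Ω₁ Ω₂ T α β : Type}

theorem ent_fst [Fintype Ω₁] [Fintype Ω₂] [DecidableEq α] {w : Ω₁ × Ω₂ → ℝ} {p : Ω₁ → ℝ}
    (hw : ∀ ω₁, ∑ ω₂, w (ω₁, ω₂) = p ω₁) (V : Ω₁ → α) :
    ent w (fun ω => V ω.1) = ent p V := by
  unfold ent
  congr 1
  rw [Fintype.sum_prod_type]
  apply Finset.sum_congr rfl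
  intro ω₁ _
  have h : ∀ t, (∑ ω' : Ω₁ × Ω₂, if V ω'.1 = t then w ω' else 0)
      = ∑ ω', if V ω' = t then p ω' else 0 := by
    intro t
    rw [Fintype.sum_prod_type]
    apply Finset.sum_congr rfl
    intro x _
    dsimp only
    split_ifs
    · exact hw x
    · simp
  simp only [h]
  rw [← Finset.sum_mul, hw]

theorem ent_snd [Fintype Ω₁] [Fintype Ω₂] [DecidableEq α] {w : Ω₁ × Ω₂ → ℝ} {p : Ω₂ → ℝ}
    (hw : ∀ ω₂, ∑ ω₁, w (ω₁, ω₂) = p ω₂) (V : Ω₂ → α) :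
    ent w (fun ω => V ω.2) = ent p V := by
  unfold ent
  congr 1
  rw [Fintype.sum_prod_type_right]
  apply Finset.sum_congr rfl
  intro ω₁ _
  have h : ∀ t, (∑ ω' : Ω₁ × Ω₂, if V ω'.2 = t then w ω' else 0)
      = ∑ ω', if V ω' = t then p ω' else 0 := by
    intro t
    rw [Fintype.sum_prod_type_right]
    apply Finset.sum_congr rfl
    intro x _
    dsimp only
    split_ifs
    · exact hw x
    · simp
  simp only [h]
  rw [← Finset.sum_mul, hw]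

theorem ent_supp [Fintype Ω] [DecidableEq α] {p : Ω → ℝ} {U V : Ω → α}
    (h : ∀ ω, p ω ≠ 0 → U ω = V ω) : ent p U = ent p V := by
  unfold ent
  congr 1
  apply Finset.sum_congr rfl
  intro ω _
  by_cases h0 : p ω = 0
  · simp [h0]
  · congr 2
    apply Finset.sum_congr rfl
    intro ω' _
    by_cases h1 : p ω' = 0
    · simp [h1]
    · rw [h ω h0, h ω' h1]

/-- The law of a variable. -/
noncomputable def law [Fintype Ω] [DecidableEq α] (p : Ω → ℝ) (U : Ω → α) (t : α) : ℝ :=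
  ∑ ω, if U ω = t then p ω else 0

theorem law_fst [Fintype Ω₁] [Fintype Ω₂] [DecidableEq α] {w : Ω₁ × Ω₂ → ℝ} {p : Ω₁ → ℝ}
    (hw : ∀ ω₁, ∑ ω₂, w (ω₁, ω₂) = p ω₁) (V : Ω₁ → α) (t : α) :
    law w (fun ω => V ω.1) t = law p V t := by
  unfold law
  rw [Fintype.sum_prod_type]
  apply Finset.sum_congr rfl
  intro x _
  dsimp only
  split_ifs
  · exact hw x
  · simp

theorem law_snd [Fintype Ω₁] [Fintype Ω₂] [DecidableEq α] {w : Ω₁ × Ω₂ → ℝ} {p : Ω₂ → ℝ}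
    (hw : ∀ ω₂, ∑ ω₁, w (ω₁, ω₂) = p ω₂) (V : Ω₂ → α) (t : α) :
    law w (fun ω => V ω.2) t = law p V t := by
  unfold law
  rw [Fintype.sum_prod_type_right]
  apply Finset.sum_congr rfl
  intro x _
  dsimp only
  split_ifs
  · exact hw x
  · simp

theorem law_supp [Fintype Ω] [DecidableEq α] {p : Ω → ℝ} {U V : Ω → α}
    (h : ∀ ω, p ω ≠ 0 → U ω = V ω) (t : α) : law p U t = law p V t := by
  unfold law
  apply Finset.sum_congr rfl
  intro ω' _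
  by_cases h1 : p ω' = 0
  · simp [h1]
  · rw [h ω' h1]

theorem ent_law [Fintype Ω₁] [Fintype Ω₂] [DecidableEq α] {p₁ : Ω₁ → ℝ} {p₂ : Ω₂ → ℝ}
    {U₁ : Ω₁ → α} {U₂ : Ω₂ → α} (h : ∀ t, law p₁ U₁ t = law p₂ U₂ t) :
    ent p₁ U₁ = ent p₂ U₂ := by
  classical
  have key : ∀ {Ω : Type} [Fintype Ω] (p : Ω → ℝ) (U : Ω → α) (s : Finset α),
      (∀ ω, U ω ∈ s) → ent p U = -∑ t ∈ s, law p U t * Real.log (law p U t) := by
    intro Ω _ p U s hs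
    unfold ent
    congr 1
    rw [← Finset.sum_fiberwise_of_maps_to (s := Finset.univ) (t := s) (g := U)
      (fun ω _ => hs ω)]
    apply Finset.sum_congr rfl
    intro t _
    have : ∀ ω ∈ Finset.univ.filter (fun ω => U ω = t),
        p ω * Real.log (∑ ω', if U ω' = U ω then p ω' else 0)
          = p ω * Real.log (law p U t) := by
      intro ω hω
      have := (Finset.mem_filter.mp hω).2
      rw [this]; rfl
    rw [Finset.sum_congr rfl this, ← Finset.sum_mul]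
    congr 1
    unfold law
    rw [Finset.sum_filter]
  rw [key p₁ U₁ (Finset.univ.image U₁ ∪ Finset.univ.image U₂)
      (fun ω => Finset.mem_union_left _ (Finset.mem_image_of_mem _ (Finset.mem_univ _))),
    key p₂ U₂ (Finset.univ.image U₁ ∪ Finset.univ.image U₂)
      (fun ω => Finset.mem_union_right _ (Finset.mem_image_of_mem _ (Finset.mem_univ _)))]
  simp only [h]

/-- the conversions from `hh` to `ent` for five variables -/
theorem hh5 [Fintype Ω] [DecidableEq T] (w : Ω → ℝ) (U0 U1 U2 U3 U4 : Ω → T) :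
    hh w ![U0, U1, U2, U3, U4] {0} = ent w U0 ∧
    hh w ![U0, U1, U2, U3, U4] {1} = ent w U1 ∧
    hh w ![U0, U1, U2, U3, U4] {2} = ent w U2 ∧
    hh w ![U0, U1, U2, U3, U4] {3} = ent w U3 ∧
    hh w ![U0, U1, U2, U3, U4] {4} = ent w U4 ∧
    hh w ![U0, U1, U2, U3, U4] {0, 1} = ent w (fun ω => (U0 ω, U1 ω)) ∧
    hh w ![U0, U1, U2, U3, U4] {0, 2} = ent w (fun ω => (U0 ω, U2 ω)) ∧
    hh w ![U0, U1, U2, U3, U4] {0, 3} = ent w (fun ω => (U0 ω, U3 ω)) ∧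
    hh w ![U0, U1, U2, U3, U4] {0, 4} = ent w (fun ω => (U0 ω, U4 ω)) ∧
    hh w ![U0, U1, U2, U3, U4] {1, 2} = ent w (fun ω => (U1 ω, U2 ω)) ∧
    hh w ![U0, U1, U2, U3, U4] {1, 3} = ent w (fun ω => (U1 ω, U3 ω)) ∧
    hh w ![U0, U1, U2, U3, U4] {1, 4} = ent w (fun ω => (U1 ω, U4 ω)) ∧
    hh w ![U0, U1, U2, U3, U4] {2, 3} = ent w (fun ω => (U2 ω, U3 ω)) ∧
    hh w ![U0, U1, U2, U3, U4] {2, 4} = ent w (fun ω => (U2 ω, U4 ω)) ∧
    hh w ![U0, U1, U2, U3, U4] {3, 4} = ent w (fun ω => (U3 ω, U4 ω)) ∧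
    hh w ![U0, U1, U2, U3, U4] {0, 1, 2} = ent w (fun ω => (U0 ω, U1 ω, U2 ω)) ∧
    hh w ![U0, U1, U2, U3, U4] {0, 1, 3} = ent w (fun ω => (U0 ω, U1 ω, U3 ω)) ∧
    hh w ![U0, U1, U2, U3, U4] {0, 1, 4} = ent w (fun ω => (U0 ω, U1 ω, U4 ω)) ∧
    hh w ![U0, U1, U2, U3, U4] {0, 2, 3} = ent w (fun ω => (U0 ω, U2 ω, U3 ω)) ∧
    hh w ![U0, U1, U2, U3, U4] {0, 2, 4} = ent w (fun ω => (U0 ω, U2 ω, U4 ω)) ∧
    hh w ![U0, U1, U2, U3, U4] {0, 3, 4} = ent w (fun ω => (U0 ω, U3 ω, U4 ω)) ∧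
    hh w ![U0, U1, U2, U3, U4] {0, 2, 3, 4} = ent w (fun ω => (U0 ω, U2 ω, U3 ω, U4 ω)) ∧
    hh w ![U0, U1, U2, U3, U4] {0, 1, 2, 3, 4}
      = ent w (fun ω => ((U0 ω, U1 ω, U2 ω), (U3 ω, U4 ω))) := by
  refine ⟨?_, ?_, ?_, ?_, ?_, ?_, ?_, ?_, ?_, ?_, ?_, ?_, ?_, ?_, ?_, ?_, ?_, ?_, ?_, ?_, ?_,
    ?_, ?_⟩ <;>
  · unfold hh ent
    simp [Prod.mk.injEq, and_assoc]

end Pool.Agent.N372.EN
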