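import Pool.Agent.N372.EN.Stm

/-!
Project EN (helper372), leaf EX: the example, by helper953.
-/

set_option autoImplicit false

namespace Pool.Agent.N372.EN

/-- the weights of the example -/
noncomputable def exP (t : ℝ) : Fin 4 → ℝ := ![(1 - t) ^ 2, t * (1 - t), t * (1 - t), t ^ 2]

/-- the variables of the example -/
def exX : Fin 4 → Fin 4 → Fin 4 := ![![0, 0, 0, 1], ![0, 1, 1, 1], ![0, 0, 1, 1], ![0, 1, 0, 1]]

theorem ex_h0 (p : Fin 4 → ℝ) :
    hh p exX {0} =
      -((p 0 + p 1 + p 2) * Real.log (p 0 + p 1 + p 2) + p 3 * Real.log (p 3)) := by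
  unfold hh
  simp only [Fin.sum_univ_four]
  rw [if_pos (by decide), if_pos (by decide), if_pos (by decide), if_neg (by decide),
    if_pos (by decide), if_pos (by decide), if_pos (by decide), if_neg (by decide),
    if_pos (by decide), if_pos (by decide), if_pos (by decide), if_neg (by decide),
    if_neg (by decide), if_neg (by decide), if_neg (by decide), if_pos (by decide)]
  simp only [add_zero, zero_add]
  all_goals ring

theorem ex_h1 (p : Fin 4 → ℝ) :
    hh p exX {1} =
      -(p 0 * Real.log (p 0) + (p 1 + p 2 + p 3) * Real.log (p 1 + p 2 + p 3)) := by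
  unfold hh
  simp only [Fin.sum_univ_four]
  rw [if_pos (by decide), if_neg (by decide), if_neg (by decide), if_neg (by decide),
    if_neg (by decide), if_pos (by decide), if_pos (by decide), if_pos (by decide),
    if_neg (by decide), if_pos (by decide), if_pos (by decide), if_pos (by decide),
    if_neg (by decide), if_pos (by decide), if_pos (by decide), if_pos (by decide)]
  simp only [add_zero, zero_add]
  all_goals ring

theorem ex_h2 (p : Fin 4 → ℝ) :
    hh p exX {2} =
      -((p 0 + p 1) * Real.log (p 0 + p 1) + (p 2 + p 3) * Real.log (p 2 + p 3)) := by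
  unfold hh
  simp only [Fin.sum_univ_four]
  rw [if_pos (by decide), if_pos (by decide), if_neg (by decide), if_neg (by decide),
    if_pos (by decide), if_pos (by decide), if_neg (by decide), if_neg (by decide),
    if_neg (by decide), if_neg (by decide), if_pos (by decide), if_pos (by decide),
    if_neg (by decide), if_neg (by decide), if_pos (by decide), if_pos (by decide)]
  simp only [add_zero, zero_add]
  all_goals ring

theorem ex_h3 (p : Fin 4 → ℝ) :
    hh p exX {3} =
      -((p 0 + p 2) * Real.log (p 0 + p 2) + (p 1 + p 3) * Real.log (p 1 + p 3)) := by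
  unfold hh
  simp only [Fin.sum_univ_four]
  rw [if_pos (by decide), if_neg (by decide), if_pos (by decide), if_neg (by decide),
    if_neg (by decide), if_pos (by decide), if_neg (by decide), if_pos (by decide),
    if_pos (by decide), if_neg (by decide), if_pos (by decide), if_neg (by decide),
    if_neg (by decide), if_pos (by decide), if_neg (by decide), if_pos (by decide)]
  simp only [add_zero, zero_add]
  all_goals ring

theorem ex_h01 (p : Fin 4 → ℝ) :
    hh p exX {0, 1} =
      -(p 0 * Real.log (p 0) + (p 1 + p 2) * Real.log (p 1 + p 2) + p 3 * Real.log (p 3)) := by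
  unfold hh
  simp only [Fin.sum_univ_four]
  rw [if_pos (by decide), if_neg (by decide), if_neg (by decide), if_neg (by decide),
    if_neg (by decide), if_pos (by decide), if_pos (by decide), if_neg (by decide),
    if_neg (by decide), if_pos (by decide), if_pos (by decide), if_neg (by decide),
    if_neg (by decide), if_neg (by decide), if_neg (by decide), if_pos (by decide)]
  simp only [add_zero, zero_add]
  all_goals ring

theorem ex_h23 (p : Fin 4 → ℝ) :
    hh p exX {2, 3} =
      -(p 0 * Real.log (p 0) + p 1 * Real.log (p 1) + p 2 * Real.log (p 2) + p 3 * Real.log (p 3)) := by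
  unfold hh
  simp only [Fin.sum_univ_four]
  rw [if_pos (by decide), if_neg (by decide), if_neg (by decide), if_neg (by decide),
    if_neg (by decide), if_pos (by decide), if_neg (by decide), if_neg (by decide),
    if_neg (by decide), if_neg (by decide), if_pos (by decide), if_neg (by decide),
    if_neg (by decide), if_neg (by decide), if_neg (by decide), if_pos (by decide)]
  simp only [add_zero, zero_add]
  all_goals ring

theorem ex_h02 (p : Fin 4 → ℝ) :
    hh p exX {0, 2} =
      -((p 0 + p 1) * Real.log (p 0 + p 1) + p 2 * Real.log (p 2) + p 3 * Real.log (p 3)) := by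
  unfold hh
  simp only [Fin.sum_univ_four]
  rw [if_pos (by decide), if_pos (by decide), if_neg (by decide), if_neg (by decide),
    if_pos (by decide), if_pos (by decide), if_neg (by decide), if_neg (by decide),
    if_neg (by decide), if_neg (by decide), if_pos (by decide), if_neg (by decide),
    if_neg (by decide), if_neg (by decide), if_neg (by decide), if_pos (by decide)]
  simp only [add_zero, zero_add]
  all_goals ring

theorem ex_h03 (p : Fin 4 → ℝ) :
    hh p exX {0, 3} =
      -((p 0 + p 2) * Real.log (p 0 + p 2) + p 1 * Real.log (p 1) + p 3 * Real.log (p 3)) := by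
  unfold hh
  simp only [Fin.sum_univ_four]
  rw [if_pos (by decide), if_neg (by decide), if_pos (by decide), if_neg (by decide),
    if_neg (by decide), if_pos (by decide), if_neg (by decide), if_neg (by decide),
    if_pos (by decide), if_neg (by decide), if_pos (by decide), if_neg (by decide),
    if_neg (by decide), if_neg (by decide), if_neg (by decide), if_pos (by decide)]
  simp only [add_zero, zero_add]
  all_goals ring

theorem ex_h023 (p : Fin 4 → ℝ) :
    hh p exX {0, 2, 3} =
      -(p 0 * Real.log (p 0) + p 1 * Real.log (p 1) + p 2 * Real.log (p 2) + p 3 * Real.log (p 3)) := by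
  unfold hh
  simp only [Fin.sum_univ_four]
  rw [if_pos (by decide), if_neg (by decide), if_neg (by decide), if_neg (by decide),
    if_neg (by decide), if_pos (by decide), if_neg (by decide), if_neg (by decide),
    if_neg (by decide), if_neg (by decide), if_pos (by decide), if_neg (by decide),
    if_neg (by decide), if_neg (by decide), if_neg (by decide), if_pos (by decide)]
  simp only [add_zero, zero_add]
  all_goals ring

theorem ex_h12 (p : Fin 4 → ℝ) :
    hh p exX {1, 2} =
      -(p 0 * Real.log (p 0) + p 1 * Real.log (p 1) + (p 2 + p 3) * Real.log (p 2 + p 3)) := by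
  unfold hh
  simp only [Fin.sum_univ_four]
  rw [if_pos (by decide), if_neg (by decide), if_neg (by decide), if_neg (by decide),
    if_neg (by decide), if_pos (by decide), if_neg (by decide), if_neg (by decide),
    if_neg (by decide), if_neg (by decide), if_pos (by decide), if_pos (by decide),
    if_neg (by decide), if_neg (by decide), if_pos (by decide), if_pos (by decide)]
  simp only [add_zero, zero_add]
  all_goals ring

theorem ex_h13 (p : Fin 4 → ℝ) :
    hh p exX {1, 3} =
      -(p 0 * Real.log (p 0) + (p 1 + p 3) * Real.log (p 1 + p 3) + p 2 * Real.log (p 2)) := by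
  unfold hh
  simp only [Fin.sum_univ_four]
  rw [if_pos (by decide), if_neg (by decide), if_neg (by decide), if_neg (by decide),
    if_neg (by decide), if_pos (by decide), if_neg (by decide), if_pos (by decide),
    if_neg (by decide), if_neg (by decide), if_pos (by decide), if_neg (by decide),
    if_neg (by decide), if_pos (by decide), if_neg (by decide), if_pos (by decide)]
  simp only [add_zero, zero_add]
  all_goals ring

theorem ex_h012 (p : Fin 4 → ℝ) :
    hh p exX {0, 1, 2} =
      -(p 0 * Real.log (p 0) + p 1 * Real.log (p 1) + p 2 * Real.log (p 2) + p 3 * Real.log (p 3)) := by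
  unfold hh
  simp only [Fin.sum_univ_four]
  rw [if_pos (by decide), if_neg (by decide), if_neg (by decide), if_neg (by decide),
    if_neg (by decide), if_pos (by decide), if_neg (by decide), if_neg (by decide),
    if_neg (by decide), if_neg (by decide), if_pos (by decide), if_neg (by decide),
    if_neg (by decide), if_neg (by decide), if_neg (by decide), if_pos (by decide)]
  simp only [add_zero, zero_add]
  all_goals ring

theorem ex_h013 (p : Fin 4 → ℝ) :
    hh p exX {0, 1, 3} =
      -(p 0 * Real.log (p 0) + p 1 * Real.log (p 1) + p 2 * Real.log (p 2) + p 3 * Real.log (p 3)) := by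
  unfold hh
  simp only [Fin.sum_univ_four]
  rw [if_pos (by decide), if_neg (by decide), if_neg (by decide), if_neg (by decide),
    if_neg (by decide), if_pos (by decide), if_neg (by decide), if_neg (by decide),
    if_neg (by decide), if_neg (by decide), if_pos (by decide), if_neg (by decide),
    if_neg (by decide), if_neg (by decide), if_neg (by decide), if_pos (by decide)]
  simp only [add_zero, zero_add]
  all_goals ring

theorem ex_vals (t : ℝ) (h0 : 0 < t) (h1 : t < 1) :
    fI (hh (exP t) exX) = -(t ^ 2 * Real.log t) - (1 - t) ^ 2 * Real.log (1 - t) -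
      (1 - t ^ 2) * Real.log (1 + t) - t * (2 - t) * Real.log (2 - t) +
      2 * t * (1 - t) * Real.log 2 ∧
    gI (hh (exP t) exX) = ((1 - t) ^ 2 * Real.log (1 - t) + (1 - t ^ 2) * Real.log (1 + t)) +
      2 * (-(t * (1 - t) * Real.log (1 - t)) + t * (2 - t) * Real.log (2 - t) -
        2 * t * (1 - t) * Real.log 2) := by
  have p0 : exP t 0 = (1 - t) ^ 2 := rfl
  have p1 : exP t 1 = t * (1 - t) := rfl
  have p2 : exP t 2 = t * (1 - t) := rfl
  have p3 : exP t 3 = t ^ 2 := rfl
  have ht : t ≠ 0 := h0.ne'
  have ht1 : 1 - t ≠ 0 := by linarith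
  have ht2 : 1 + t ≠ 0 := by linarith
  have ht3 : 2 - t ≠ 0 := by linarith
  obtain ⟨l, hl⟩ : ∃ l, l = Real.log t := ⟨_, rfl⟩
  obtain ⟨m, hm⟩ : ∃ m, m = Real.log (1 - t) := ⟨_, rfl⟩
  obtain ⟨n, hn⟩ : ∃ n, n = Real.log (1 + t) := ⟨_, rfl⟩
  obtain ⟨q, hq⟩ : ∃ q, q = Real.log (2 - t) := ⟨_, rfl⟩
  obtain ⟨b, hb⟩ : ∃ b, b = Real.log 2 := ⟨_, rfl⟩
  -- the logarithms of the classes
  have e0 : Real.log ((1 - t) ^ 2) = 2 * m := by rw [Real.log_pow, hm]; norm_num
  have e1 : Real.log (t * (1 - t)) = l + m := by rw [Real.log_mul ht ht1, hl, hm]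
  have e3 : Real.log (t ^ 2) = 2 * l := by rw [Real.log_pow, hl]; norm_num
  have e012 : Real.log ((1 - t) ^ 2 + t * (1 - t) + t * (1 - t)) = m + n := by
    rw [show (1 - t) ^ 2 + t * (1 - t) + t * (1 - t) = (1 - t) * (1 + t) by ring,
      Real.log_mul ht1 ht2, hm, hn]
  have e123 : Real.log (t * (1 - t) + t * (1 - t) + t ^ 2) = l + q := by
    rw [show t * (1 - t) + t * (1 - t) + t ^ 2 = t * (2 - t) by ring, Real.log_mul ht ht3, hl, hq]
  have e01 : Real.log ((1 - t) ^ 2 + t * (1 - t)) = m := by
    rw [show (1 - t) ^ 2 + t * (1 - t) = 1 - t by ring, hm]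
  have e23 : Real.log (t * (1 - t) + t ^ 2) = l := by
    rw [show t * (1 - t) + t ^ 2 = t by ring, hl]
  have e12 : Real.log (t * (1 - t) + t * (1 - t)) = b + l + m := by
    rw [show t * (1 - t) + t * (1 - t) = 2 * t * (1 - t) by ring,
      Real.log_mul (by positivity) ht1, Real.log_mul (by norm_num) ht, hl, hm, hb]
  unfold fI gI
  rw [ex_h0, ex_h1, ex_h2, ex_h3, ex_h01, ex_h23, ex_h02, ex_h03, ex_h023, ex_h12, ex_h13,
    ex_h012, ex_h013, p0, p1, p2, p3, e0, e1, e3, e012, e123, e01, e23, e12, ← hl, ← hm, ← hn,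
    ← hq, ← hb]
  constructor <;> ring

theorem ex : S_EX := by
  intro K
  obtain ⟨t, ht⟩ : ∃ t, t = Real.exp (-(6 * |K| + 3)) := ⟨_, rfl⟩
  have h0 : 0 < t := by rw [ht]; exact Real.exp_pos _
  have hl : Real.log t = -(6 * |K| + 3) := by rw [ht, Real.log_exp]
  have hK : 0 ≤ |K| := abs_nonneg K
  have h12 : t ≤ 1 / 2 := by
    have e1 := Real.log_two_lt_d9
    have e2 : Real.log (1 / 2) = -Real.log 2 := by rw [one_div, Real.log_inv]
    rw [← Real.log_le_log_iff h0 (by norm_num), hl, e2]
    linarith
  have h1 : t < 1 := by linarith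
  obtain ⟨hf, hg⟩ := ex_vals t h0 h1
  refine ⟨exP t, exX, ?_, ?_, ?_⟩
  · have h2 : 0 ≤ 1 - t := by linarith
    intro ω
    fin_cases ω
    · show 0 ≤ (1 - t) ^ 2
      positivity
    · show 0 ≤ t * (1 - t)
      positivity
    · show 0 ≤ t * (1 - t)
      positivity
    · show 0 ≤ t ^ 2
      positivity
  · rw [Fin.sum_univ_four]
    show (1 - t) ^ 2 + t * (1 - t) + t * (1 - t) + t ^ 2 = 1
    ring
  · rw [hf, hg, hl]
    have ht1 : 0 < 1 - t := by linarith
    have ht2 : 0 < 1 + t := by linarith
    have ht3 : 0 < 2 - t := by linarith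
    -- logarithms
    have m1 : Real.log (1 - t) ≤ -t := by
      have := Real.log_le_sub_one_of_pos ht1
      linarith
    have m2 : -(t / (1 - t)) ≤ Real.log (1 - t) := by
      have h3 := Real.one_sub_inv_le_log_of_pos ht1
      have h4 : 1 - (1 - t)⁻¹ = -(t / (1 - t)) := by field_simp; ring
      linarith
    have n1 : Real.log (1 + t) ≤ t := by
      have := Real.log_le_sub_one_of_pos ht2
      linarith
    have n2 : t / (1 + t) ≤ Real.log (1 + t) := by
      have h3 := Real.one_sub_inv_le_log_of_pos ht2
      have h4 : 1 - (1 + t)⁻¹ = t / (1 + t) := by field_simp; ring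
      linarith
    have hq : Real.log (2 - t) = Real.log 2 + Real.log (1 - t / 2) := by
      rw [← Real.log_mul (by norm_num) (by linarith)]
      congr 1
      ring
    have q1 : Real.log (2 - t) ≤ Real.log 2 - t / 2 := by
      have := Real.log_le_sub_one_of_pos (show 0 < 1 - t / 2 by linarith)
      linarith
    have q2 : Real.log 2 - t / (2 - t) ≤ Real.log (2 - t) := by
      have h3 := Real.one_sub_inv_le_log_of_pos (show 0 < 1 - t / 2 by linarith)
      have h4 : 1 - (1 - t / 2)⁻¹ = -(t / (2 - t)) := by
        have h5 : (1 - t / 2 : ℝ) ≠ 0 := by linarith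
        rw [show (1 - t / 2 : ℝ) = (2 - t) / 2 by ring, inv_div]
        field_simp
        ring
      linarith
    have b1 : Real.log 2 ≤ 0.7 := by
      have := Real.log_two_lt_d9
      linarith
    have b2 : 0.6 ≤ Real.log 2 := by
      have := Real.log_two_gt_d9
      linarith
    obtain ⟨m, hm⟩ : ∃ m, m = Real.log (1 - t) := ⟨_, rfl⟩
    obtain ⟨n, hn⟩ : ∃ n, n = Real.log (1 + t) := ⟨_, rfl⟩
    obtain ⟨q, hq'⟩ : ∃ q, q = Real.log (2 - t) := ⟨_, rfl⟩
    obtain ⟨b, hb⟩ : ∃ b, b = Real.log 2 := ⟨_, rfl⟩
    rw [← hm] at m1 m2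
    rw [← hn] at n1 n2
    rw [← hq', ← hb] at q1 q2
    rw [← hb] at b1 b2
    rw [← hm, ← hn, ← hq', ← hb]
    -- the products
    have a1 : (1 - t) ^ 2 * m ≤ (1 - t) ^ 2 * (-t) := mul_le_mul_of_nonneg_left m1 (by positivity)
    have a2 : -(t * (1 - t)) ≤ (1 - t) ^ 2 * m := by
      have h3 := mul_le_mul_of_nonneg_left m2 (show 0 ≤ (1 - t) ^ 2 by positivity)
      have h4 : (1 - t) ^ 2 * -(t / (1 - t)) = -(t * (1 - t)) := by field_simp
      linarith
    have a3 : (1 - t ^ 2) * n ≤ (1 - t ^ 2) * t :=
      mul_le_mul_of_nonneg_left n1 (by nlinarith)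
    have a4 : t * (1 - t) ≤ (1 - t ^ 2) * n := by
      have h3 := mul_le_mul_of_nonneg_left n2 (show 0 ≤ 1 - t ^ 2 by nlinarith)
      have h4 : (1 - t ^ 2) * (t / (1 + t)) = t * (1 - t) := by field_simp; ring
      linarith
    have a5 : t * (1 - t) * m ≤ t * (1 - t) * (-t) := mul_le_mul_of_nonneg_left m1 (by positivity)
    have a6 : -(t ^ 2) ≤ t * (1 - t) * m := by
      have h3 := mul_le_mul_of_nonneg_left m2 (show 0 ≤ t * (1 - t) by positivity)
      have h4 : t * (1 - t) * -(t / (1 - t)) = -(t ^ 2) := by field_simp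
      linarith
    have a7 : t * (2 - t) * q ≤ t * (2 - t) * (b - t / 2) :=
      mul_le_mul_of_nonneg_left q1 (by positivity)
    have a8 : t * (2 - t) * b - t ^ 2 ≤ t * (2 - t) * q := by
      have h3 := mul_le_mul_of_nonneg_left q2 (show 0 ≤ t * (2 - t) by positivity)
      have h4 : t * (2 - t) * (b - t / (2 - t)) = t * (2 - t) * b - t ^ 2 := by field_simp
      linarith
    have t2 : 0 < t ^ 2 := by positivity
    have t3 : 0 < t ^ 3 := by positivity
    have t32 : t ^ 3 ≤ t ^ 2 / 2 := by nlinarith
    obtain ⟨g, hgd⟩ : ∃ g, g = (1 - t) ^ 2 * m + (1 - t ^ 2) * n +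
      2 * (-(t * (1 - t) * m) + t * (2 - t) * q - 2 * t * (1 - t) * b) := ⟨_, rfl⟩
    rw [← hgd]
    have tb1 : t ^ 2 * b ≤ t ^ 2 * 0.7 := mul_le_mul_of_nonneg_left b1 t2.le
    have tb2 : t ^ 2 * 0.6 ≤ t ^ 2 * b := mul_le_mul_of_nonneg_left b2 t2.le
    have g0 : 0 ≤ g := by
      rw [hgd]
      linarith
    have g6 : g ≤ 6 * t ^ 2 := by
      rw [hgd]
      linarith
    have hKg : K * g ≤ |K| * (6 * t ^ 2) := by
      calc K * g ≤ |K| * g := mul_le_mul_of_nonneg_right (le_abs_self K) g0
        _ ≤ |K| * (6 * t ^ 2) := mul_le_mul_of_nonneg_left g6 hK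
    have h7 : 0 ≤ |K| * t ^ 2 := by positivity
    linarith

end Pool.Agent.N372.EN
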