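import Pool.Agent.N372.EN.Ent

/-!
Project EN: the family of information inequalities.
-/

set_option autoImplicit false

namespace Pool.Agent.N372.EN

variable {Ω Ω₁ Ω₂ T α β : Type}

theorem ent_equiv [Fintype Ω] [DecidableEq α] [DecidableEq β] (p : Ω → ℝ) {U : Ω → α}
    {V : Ω → β} (h : ∀ ω ω', U ω' = U ω ↔ V ω' = V ω) : ent p U = ent p V := by
  unfold ent
  simp only [h]

/-- I(X;Y|A) -/
noncomputable def Iz [Fintype Ω] [DecidableEq T] (p : Ω → ℝ) (A X Y : Ω → T) : ℝ :=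
  ent p (fun ω => (A ω, X ω)) + ent p (fun ω => (A ω, Y ω))
    - ent p (fun ω => (A ω, X ω, Y ω)) - ent p A

/-- I(A;Y|X) -/
noncomputable def Ir [Fintype Ω] [DecidableEq T] (p : Ω → ℝ) (A X Y : Ω → T) : ℝ :=
  ent p (fun ω => (A ω, X ω)) + ent p (fun ω => (X ω, Y ω))
    - ent p (fun ω => (A ω, X ω, Y ω)) - ent p X

/-- I(A;X|Y) -/
noncomputable def Is [Fintype Ω] [DecidableEq T] (p : Ω → ℝ) (A X Y : Ω → T) : ℝ :=
  ent p (fun ω => (A ω, Y ω)) + ent p (fun ω => (X ω, Y ω))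
    - ent p (fun ω => (A ω, X ω, Y ω)) - ent p Y

theorem Ir_swap [Fintype Ω] [DecidableEq T] (p : Ω → ℝ) (A X Y : Ω → T) :
    Ir p A Y X = Is p A X Y := by
  unfold Ir Is
  rw [ent_equiv p (U := fun ω => (Y ω, X ω)) (V := fun ω => (X ω, Y ω))
      (by intro ω ω'; simp [and_comm]),
    ent_equiv p (U := fun ω => (A ω, Y ω, X ω)) (V := fun ω => (A ω, X ω, Y ω))
      (by intro ω ω'; simp [and_comm])]

theorem Is_swap [Fintype Ω] [DecidableEq T] (p : Ω → ℝ) (A X Y : Ω → T) :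
    Is p A Y X = Ir p A X Y := by
  rw [← Ir_swap]

/-- The gluing step. -/
theorem glueL (h3 : S_GLUE) [Fintype Ω₁] [Fintype Ω₂] [DecidableEq Ω₁] [DecidableEq Ω₂]
    [DecidableEq T] (q : Ω₁ → ℝ) (p : Ω₂ → ℝ) (hq : ∀ ω, 0 ≤ q ω) (hp : ∀ ω, 0 ≤ p ω)
    (A X Y : Ω₁ → T) (a b c d : Ω₂ → T)
    (hl : ∀ t, law q (fun ω => (A ω, Y ω)) t = law p (fun ω => (a ω, b ω)) t) :
    ∃ w : Ω₁ × Ω₂ → ℝ, (∀ ω, 0 ≤ w ω) ∧ (∀ ω₁, ∑ ω₂, w (ω₁, ω₂) = q ω₁) ∧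
      (∀ ω₂, ∑ ω₁, w (ω₁, ω₂) = p ω₂) ∧
      (∀ ω, w ω ≠ 0 → A ω.1 = a ω.2 ∧ Y ω.1 = b ω.2) ∧
      hh w ![fun ω => A ω.1, fun ω => X ω.1, fun ω => Y ω.1, fun ω => c ω.2, fun ω => d ω.2]
          {0, 1, 2, 3, 4}
        + hh w ![fun ω => A ω.1, fun ω => X ω.1, fun ω => Y ω.1, fun ω => c ω.2,
          fun ω => d ω.2] {0, 2}
      = hh w ![fun ω => A ω.1, fun ω => X ω.1, fun ω => Y ω.1, fun ω => c ω.2,
          fun ω => d ω.2] {0, 1, 2}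
        + hh w ![fun ω => A ω.1, fun ω => X ω.1, fun ω => Y ω.1, fun ω => c ω.2,
          fun ω => d ω.2] {0, 2, 3, 4} := by
  obtain ⟨w, hw0, hw1, hw2, hws, hwe⟩ := h3 Ω₁ Ω₂ (T × T) q p (fun ω => (A ω, Y ω))
    (fun ω => (a ω, b ω)) hq hp hl
  have hs : ∀ ω, w ω ≠ 0 → A ω.1 = a ω.2 ∧ Y ω.1 = b ω.2 := by
    intro ω h
    have := hws ω h
    simpa using this
  refine ⟨w, hw0, hw1, hw2, hs, ?_⟩
  obtain ⟨-, -, -, -, -, -, e02, -, -, -, -, -, -, -, -, e012, -, -, -, -, -, e0234, eall⟩ :=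
    hh5 w (fun ω => A ω.1) (fun ω => X ω.1) (fun ω => Y ω.1) (fun ω => c ω.2) (fun ω => d ω.2)
  rw [e02, e012, e0234, eall]
  have k := hwe (T × T × T) (T × T × T × T) (fun ω => (A ω, X ω, Y ω))
    (fun ω => (a ω, b ω, c ω, d ω))
    (by intro ω ω' h; simp only [Prod.mk.injEq] at h ⊢; exact ⟨h.1, h.2.2⟩)
    (by intro ω ω' h; simp only [Prod.mk.injEq] at h ⊢; exact ⟨h.1, h.2.1⟩)
  have f1 : ent w (fun ω => ((A ω.1, X ω.1, Y ω.1), (a ω.2, b ω.2, c ω.2, d ω.2)))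
      = ent w (fun ω => ((A ω.1, X ω.1, Y ω.1), (A ω.1, Y ω.1, c ω.2, d ω.2))) :=
    ent_supp (by intro ω h; obtain ⟨h1, h2⟩ := hs ω h; simp [h1, h2])
  have f2 : ent w (fun ω => ((A ω.1, X ω.1, Y ω.1), (A ω.1, Y ω.1, c ω.2, d ω.2)))
      = ent w (fun ω => ((A ω.1, X ω.1, Y ω.1), (c ω.2, d ω.2))) :=
    ent_equiv w (by intro ω ω'; simp only [Prod.mk.injEq]; tauto)
  have f3 : ent w (fun ω => (A ω.1, Y ω.1)) = ent q (fun ω => (A ω, Y ω)) :=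
    ent_fst hw1 (fun ω => (A ω, Y ω))
  have f4 : ent w (fun ω => (A ω.1, X ω.1, Y ω.1)) = ent q (fun ω => (A ω, X ω, Y ω)) :=
    ent_fst hw1 (fun ω => (A ω, X ω, Y ω))
  have f5 : ent w (fun ω => (A ω.1, Y ω.1, c ω.2, d ω.2))
      = ent p (fun ω => (a ω, b ω, c ω, d ω)) := by
    rw [← ent_snd hw2 (fun ω => (a ω, b ω, c ω, d ω))]
    exact ent_supp (by intro ω h; obtain ⟨h1, h2⟩ := hs ω h; simp [h1, h2])
  rw [f3, f4, f5]
  rw [f1, f2] at k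
  exact k

/-- One step of the chain. -/
theorem stepL (h1 : S_SM) (h3 : S_GLUE) [Fintype Ω₁] [Fintype Ω₂] [DecidableEq Ω₁]
    [DecidableEq Ω₂] [DecidableEq T] (q : Ω₁ → ℝ) (p : Ω₂ → ℝ) (hq : ∀ ω, 0 ≤ q ω)
    (hp : ∀ ω, 0 ≤ p ω) (A X Y : Ω₁ → T) (a b c d : Ω₂ → T)
    (hl : ∀ t, law q (fun ω => (A ω, Y ω)) t = law p (fun ω => (a ω, b ω)) t) :
    ∃ w : Ω₁ × Ω₂ → ℝ, (∀ ω, 0 ≤ w ω) ∧
      (∀ t, law w (fun ω => (A ω.1, X ω.1)) t = law q (fun ω => (A ω, X ω)) t) ∧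
      (∀ t, law w (fun ω => (A ω.1, c ω.2)) t = law p (fun ω => (a ω, c ω)) t) ∧
      (∀ t, law w (fun ω => (A ω.1, d ω.2)) t = law p (fun ω => (a ω, d ω)) t) ∧
      Iz w (fun ω => A ω.1) (fun ω => X ω.1) (fun ω => c ω.2) ≤ Iz q A X Y ∧
      Iz w (fun ω => A ω.1) (fun ω => X ω.1) (fun ω => c ω.2)
        + Iz w (fun ω => A ω.1) (fun ω => X ω.1) (fun ω => d ω.2)
        ≤ Iz q A X Y + Iz p a c d ∧
      Ir w (fun ω => A ω.1) (fun ω => X ω.1) (fun ω => c ω.2) ≤ Ir q A X Y + Ir p a b c ∧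
      Is w (fun ω => A ω.1) (fun ω => X ω.1) (fun ω => c ω.2) ≤ Is q A X Y + Is p a b c ∧
      Ir w (fun ω => A ω.1) (fun ω => X ω.1) (fun ω => d ω.2) ≤ Ir q A X Y + Ir p a b d ∧
      Is w (fun ω => A ω.1) (fun ω => X ω.1) (fun ω => d ω.2) ≤ Is q A X Y + Is p a b d := by
  obtain ⟨w, hw0, hw1, hw2, hs, ci⟩ := glueL h3 q p hq hp A X Y a b c d hl
  have sub := fun S R => h1 (Fin 5) (Ω₁ × Ω₂) T w ![fun ω => A ω.1, fun ω => X ω.1,
    fun ω => Y ω.1, fun ω => c ω.2, fun ω => d ω.2] S R hw0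
  have z := pureZ sub ci
  have cc := pureC sub ci
  have dd := pureD sub ci
  obtain ⟨e0, e1, e2, e3, e4, e01, e02, e03, e04, e12, e13, e14, e23, e24, e34, e012, e013,
    e014, e023, e024, e034, e0234, eall⟩ :=
    hh5 w (fun ω => A ω.1) (fun ω => X ω.1) (fun ω => Y ω.1) (fun ω => c ω.2) (fun ω => d ω.2)
  rw [e0, e01, e02, e03, e04, e012, e013, e014, e034] at z
  rw [e0, e1, e2, e3, e01, e02, e03, e12, e13, e23, e012, e013, e023] at cc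
  rw [e1, e2, e4, e01, e02, e04, e12, e14, e24, e012, e014, e024] at dd
  have g01 : ent w (fun ω => (A ω.1, X ω.1)) = ent q (fun ω => (A ω, X ω)) :=
    ent_fst hw1 (fun ω => (A ω, X ω))
  have g02 : ent w (fun ω => (A ω.1, Y ω.1)) = ent q (fun ω => (A ω, Y ω)) :=
    ent_fst hw1 (fun ω => (A ω, Y ω))
  have g12 : ent w (fun ω => (X ω.1, Y ω.1)) = ent q (fun ω => (X ω, Y ω)) :=
    ent_fst hw1 (fun ω => (X ω, Y ω))
  have g012 : ent w (fun ω => (A ω.1, X ω.1, Y ω.1)) = ent q (fun ω => (A ω, X ω, Y ω)) :=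
    ent_fst hw1 (fun ω => (A ω, X ω, Y ω))
  have g0 : ent w (fun ω => A ω.1) = ent q A := ent_fst hw1 A
  have g1 : ent w (fun ω => X ω.1) = ent q X := ent_fst hw1 X
  have g2 : ent w (fun ω => Y ω.1) = ent q Y := ent_fst hw1 Y
  have k0 : ent w (fun ω => A ω.1) = ent p a := by
    rw [← ent_snd hw2 a]
    exact ent_supp (fun ω h => (hs ω h).1)
  have k2 : ent w (fun ω => Y ω.1) = ent p b := by
    rw [← ent_snd hw2 b]
    exact ent_supp (fun ω h => (hs ω h).2)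
  have k02 : ent w (fun ω => (A ω.1, Y ω.1)) = ent p (fun ω => (a ω, b ω)) := by
    rw [← ent_snd hw2 (fun ω => (a ω, b ω))]
    exact ent_supp (by intro ω h; obtain ⟨h1, h2⟩ := hs ω h; simp [h1, h2])
  have k03 : ent w (fun ω => (A ω.1, c ω.2)) = ent p (fun ω => (a ω, c ω)) := by
    rw [← ent_snd hw2 (fun ω => (a ω, c ω))]
    exact ent_supp (by intro ω h; obtain ⟨h1, h2⟩ := hs ω h; simp [h1])
  have k04 : ent w (fun ω => (A ω.1, d ω.2)) = ent p (fun ω => (a ω, d ω)) := by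
    rw [← ent_snd hw2 (fun ω => (a ω, d ω))]
    exact ent_supp (by intro ω h; obtain ⟨h1, h2⟩ := hs ω h; simp [h1])
  have k034 : ent w (fun ω => (A ω.1, c ω.2, d ω.2)) = ent p (fun ω => (a ω, c ω, d ω)) := by
    rw [← ent_snd hw2 (fun ω => (a ω, c ω, d ω))]
    exact ent_supp (by intro ω h; obtain ⟨h1, h2⟩ := hs ω h; simp [h1])
  have k23 : ent w (fun ω => (Y ω.1, c ω.2)) = ent p (fun ω => (b ω, c ω)) := by
    rw [← ent_snd hw2 (fun ω => (b ω, c ω))]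
    exact ent_supp (by intro ω h; obtain ⟨h1, h2⟩ := hs ω h; simp [h2])
  have k24 : ent w (fun ω => (Y ω.1, d ω.2)) = ent p (fun ω => (b ω, d ω)) := by
    rw [← ent_snd hw2 (fun ω => (b ω, d ω))]
    exact ent_supp (by intro ω h; obtain ⟨h1, h2⟩ := hs ω h; simp [h2])
  have k023 : ent w (fun ω => (A ω.1, Y ω.1, c ω.2)) = ent p (fun ω => (a ω, b ω, c ω)) := by
    rw [← ent_snd hw2 (fun ω => (a ω, b ω, c ω))]
    exact ent_supp (by intro ω h; obtain ⟨h1, h2⟩ := hs ω h; simp [h1, h2])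
  have k024 : ent w (fun ω => (A ω.1, Y ω.1, d ω.2)) = ent p (fun ω => (a ω, b ω, d ω)) := by
    rw [← ent_snd hw2 (fun ω => (a ω, b ω, d ω))]
    exact ent_supp (by intro ω h; obtain ⟨h1, h2⟩ := hs ω h; simp [h1, h2])
  have k3 : ent w (fun ω => c ω.2) = ent p c := ent_snd hw2 c
  have k4 : ent w (fun ω => d ω.2) = ent p d := ent_snd hw2 d
  refine ⟨w, hw0, ?_, ?_, ?_, ?_, ?_, ?_, ?_, ?_, ?_⟩
  · intro t
    exact law_fst hw1 (fun ω => (A ω, X ω)) t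
  · intro t
    rw [← law_snd hw2 (fun ω => (a ω, c ω)) t]
    exact law_supp (by intro ω h; obtain ⟨h1, h2⟩ := hs ω h; simp [h1]) t
  · intro t
    rw [← law_snd hw2 (fun ω => (a ω, d ω)) t]
    exact law_supp (by intro ω h; obtain ⟨h1, h2⟩ := hs ω h; simp [h1]) t
  · obtain ⟨c1, c2, c3⟩ := cc
    unfold Iz
    linarith
  · unfold Iz
    linarith
  · obtain ⟨c1, c2, c3⟩ := cc
    unfold Ir
    linarith
  · obtain ⟨c1, c2, c3⟩ := cc
    unfold Is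
    linarith
  · obtain ⟨c2, c3⟩ := dd
    unfold Ir
    linarith
  · obtain ⟨c2, c3⟩ := dd
    unfold Is
    linarith

/-- The last step: from a pair `X, Y` to the inequality. -/
theorem lastL (h1 : S_SM) (h3 : S_GLUE) [Fintype Ω₁] [Fintype Ω₂] [DecidableEq Ω₁]
    [DecidableEq Ω₂] [DecidableEq T] (q : Ω₁ → ℝ) (p : Ω₂ → ℝ) (hq : ∀ ω, 0 ≤ q ω)
    (hp : ∀ ω, 0 ≤ p ω) (A X Y : Ω₁ → T) (a b c d : Ω₂ → T)
    (hl : ∀ t, law q (fun ω => (A ω, X ω)) t = law p (fun ω => (a ω, b ω)) t) :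
    ent p a + ent p b - ent p (fun ω => (a ω, b ω))
      ≤ (ent p c + ent p d - ent p (fun ω => (c ω, d ω))) + Is p a b c + Is p a b d
        + 2 * Ir q A X Y + 2 * Iz q A X Y + Is q A X Y := by
  obtain ⟨w, hw0, hw1, hw2, hs, ci⟩ := glueL h3 q p hq hp A Y X a b c d hl
  have sub := fun S R => h1 (Fin 5) (Ω₁ × Ω₂) T w ![fun ω => A ω.1, fun ω => Y ω.1,
    fun ω => X ω.1, fun ω => c ω.2, fun ω => d ω.2] S R hw0
  have z := pureA sub ci
  obtain ⟨e0, e1, e2, e3, e4, e01, e02, e03, e04, e12, e13, e14, e23, e24, e34, e012, e013,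
    e014, e023, e024, e034, e0234, eall⟩ :=
    hh5 w (fun ω => A ω.1) (fun ω => Y ω.1) (fun ω => X ω.1) (fun ω => c ω.2) (fun ω => d ω.2)
  rw [e0, e1, e2, e3, e4, e01, e02, e03, e04, e12, e23, e24, e34, e012, e023, e024] at z
  have g01 : ent w (fun ω => (A ω.1, Y ω.1)) = ent q (fun ω => (A ω, Y ω)) :=
    ent_fst hw1 (fun ω => (A ω, Y ω))
  have g02 : ent w (fun ω => (A ω.1, X ω.1)) = ent q (fun ω => (A ω, X ω)) :=
    ent_fst hw1 (fun ω => (A ω, X ω))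
  have g12 : ent w (fun ω => (Y ω.1, X ω.1)) = ent q (fun ω => (X ω, Y ω)) := by
    rw [← ent_fst hw1 (fun ω => (X ω, Y ω))]
    exact ent_equiv w (by intro ω ω'; simp [and_comm])
  have g012 : ent w (fun ω => (A ω.1, Y ω.1, X ω.1)) = ent q (fun ω => (A ω, X ω, Y ω)) := by
    rw [← ent_fst hw1 (fun ω => (A ω, X ω, Y ω))]
    exact ent_equiv w (by intro ω ω'; simp [and_comm])
  have g0 : ent w (fun ω => A ω.1) = ent q A := ent_fst hw1 A
  have g1 : ent w (fun ω => X ω.1) = ent q X := ent_fst hw1 X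
  have g2 : ent w (fun ω => Y ω.1) = ent q Y := ent_fst hw1 Y
  have k0 : ent w (fun ω => A ω.1) = ent p a := by
    rw [← ent_snd hw2 a]
    exact ent_supp (fun ω h => (hs ω h).1)
  have k2 : ent w (fun ω => X ω.1) = ent p b := by
    rw [← ent_snd hw2 b]
    exact ent_supp (fun ω h => (hs ω h).2)
  have k02 : ent w (fun ω => (A ω.1, X ω.1)) = ent p (fun ω => (a ω, b ω)) := by
    rw [← ent_snd hw2 (fun ω => (a ω, b ω))]
    exact ent_supp (by intro ω h; obtain ⟨h1, h2⟩ := hs ω h; simp [h1, h2])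
  have k03 : ent w (fun ω => (A ω.1, c ω.2)) = ent p (fun ω => (a ω, c ω)) := by
    rw [← ent_snd hw2 (fun ω => (a ω, c ω))]
    exact ent_supp (by intro ω h; obtain ⟨h1, h2⟩ := hs ω h; simp [h1])
  have k04 : ent w (fun ω => (A ω.1, d ω.2)) = ent p (fun ω => (a ω, d ω)) := by
    rw [← ent_snd hw2 (fun ω => (a ω, d ω))]
    exact ent_supp (by intro ω h; obtain ⟨h1, h2⟩ := hs ω h; simp [h1])
  have k23 : ent w (fun ω => (X ω.1, c ω.2)) = ent p (fun ω => (b ω, c ω)) := by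
    rw [← ent_snd hw2 (fun ω => (b ω, c ω))]
    exact ent_supp (by intro ω h; obtain ⟨h1, h2⟩ := hs ω h; simp [h2])
  have k24 : ent w (fun ω => (X ω.1, d ω.2)) = ent p (fun ω => (b ω, d ω)) := by
    rw [← ent_snd hw2 (fun ω => (b ω, d ω))]
    exact ent_supp (by intro ω h; obtain ⟨h1, h2⟩ := hs ω h; simp [h2])
  have k023 : ent w (fun ω => (A ω.1, X ω.1, c ω.2)) = ent p (fun ω => (a ω, b ω, c ω)) := by
    rw [← ent_snd hw2 (fun ω => (a ω, b ω, c ω))]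
    exact ent_supp (by intro ω h; obtain ⟨h1, h2⟩ := hs ω h; simp [h1, h2])
  have k024 : ent w (fun ω => (A ω.1, X ω.1, d ω.2)) = ent p (fun ω => (a ω, b ω, d ω)) := by
    rw [← ent_snd hw2 (fun ω => (a ω, b ω, d ω))]
    exact ent_supp (by intro ω h; obtain ⟨h1, h2⟩ := hs ω h; simp [h1, h2])
  have k34 : ent w (fun ω => (c ω.2, d ω.2)) = ent p (fun ω => (c ω, d ω)) :=
    ent_snd hw2 (fun ω => (c ω, d ω))
  have k3 : ent w (fun ω => c ω.2) = ent p c := ent_snd hw2 c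
  have k4 : ent w (fun ω => d ω.2) = ent p d := ent_snd hw2 d
  unfold Ir Iz Is
  linarith

end Pool.Agent.N372.EN
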