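import Pool.Agent.N372.EN.Stm

/-!
EN/GLUE: the copy lemma for finite probability spaces (helper701)
-/

set_option autoImplicit false

namespace Pool.Agent.N372.EN

open Finset

theorem glue_le {Ω T : Type} [Fintype Ω] [DecidableEq T] (p : Ω → ℝ) (U : Ω → T)
    (hp : ∀ ω, 0 ≤ p ω) (ω : Ω) : p ω ≤ ∑ ω', if U ω' = U ω then p ω' else 0 := by
  have h := Finset.single_le_sum (f := fun ω' => if U ω' = U ω then p ω' else 0)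
    (fun ω' _ => by
      show 0 ≤ if U ω' = U ω then p ω' else 0
      split_ifs
      · exact hp ω'
      · exact le_rfl) (Finset.mem_univ ω)
  simpa using h

theorem glue : S_GLUE := by
  intro Ω₁ Ω₂ T _ _ _ _ _ p₁ p₂ U₁ U₂ h₁ h₂ hU
  obtain ⟨m, hm⟩ : ∃ m : T → ℝ, ∀ t, m t = ∑ ω, if U₁ ω = t then p₁ ω else 0 :=
    ⟨_, fun _ => rfl⟩
  have hm2 : ∀ t, m t = ∑ ω, if U₂ ω = t then p₂ ω else 0 := fun t => by rw [hm, hU]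
  have hm0 : ∀ t, 0 ≤ m t := by
    intro t
    rw [hm]
    refine Finset.sum_nonneg fun ω _ => ?_
    split_ifs
    · exact h₁ ω
    · exact le_rfl
  have hle1 : ∀ ω, p₁ ω ≤ m (U₁ ω) := fun ω => by rw [hm]; exact glue_le p₁ U₁ h₁ ω
  have hle2 : ∀ ω, p₂ ω ≤ m (U₂ ω) := fun ω => by rw [hm2]; exact glue_le p₂ U₂ h₂ ω
  obtain ⟨w, hw⟩ : ∃ w : Ω₁ × Ω₂ → ℝ, ∀ ω₁ ω₂, w (ω₁, ω₂) =
      if U₁ ω₁ = U₂ ω₂ then p₁ ω₁ * p₂ ω₂ / m (U₁ ω₁) else 0 :=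
    ⟨fun ω => if U₁ ω.1 = U₂ ω.2 then p₁ ω.1 * p₂ ω.2 / m (U₁ ω.1) else 0, fun _ _ => rfl⟩
  have hw0 : ∀ ω, 0 ≤ w ω := by
    rintro ⟨ω₁, ω₂⟩
    rw [hw]
    split_ifs
    · exact div_nonneg (mul_nonneg (h₁ _) (h₂ _)) (hm0 _)
    · exact le_rfl
  have hrow : ∀ ω₁, ∑ ω₂, w (ω₁, ω₂) = p₁ ω₁ := by
    intro ω₁
    have e1 : ∀ ω₂, w (ω₁, ω₂) = p₁ ω₁ / m (U₁ ω₁) * (if U₂ ω₂ = U₁ ω₁ then p₂ ω₂ else 0) := by
      intro ω₂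
      rw [hw]
      by_cases h : U₁ ω₁ = U₂ ω₂
      · rw [if_pos h, if_pos h.symm]
        ring
      · rw [if_neg h, if_neg (fun h' => h h'.symm), mul_zero]
    rw [Finset.sum_congr rfl fun ω₂ _ => e1 ω₂, ← Finset.mul_sum, ← hm2]
    by_cases h : m (U₁ ω₁) = 0
    · have h3 := hle1 ω₁
      rw [h] at h3
      rw [h, mul_zero]
      exact (le_antisymm h3 (h₁ ω₁)).symm
    · rw [div_mul_cancel₀ _ h]
  have hcol : ∀ ω₂, ∑ ω₁, w (ω₁, ω₂) = p₂ ω₂ := by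
    intro ω₂
    have e1 : ∀ ω₁, w (ω₁, ω₂) = p₂ ω₂ / m (U₂ ω₂) * (if U₁ ω₁ = U₂ ω₂ then p₁ ω₁ else 0) := by
      intro ω₁
      rw [hw]
      by_cases h : U₁ ω₁ = U₂ ω₂
      · rw [if_pos h, if_pos h, h]
        ring
      · rw [if_neg h, if_neg h, mul_zero]
    rw [Finset.sum_congr rfl fun ω₁ _ => e1 ω₁, ← Finset.mul_sum, ← hm]
    by_cases h : m (U₂ ω₂) = 0
    · have h3 := hle2 ω₂
      rw [h] at h3
      rw [h, mul_zero]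
      exact (le_antisymm h3 (h₂ ω₂)).symm
    · rw [div_mul_cancel₀ _ h]
  refine ⟨w, hw0, hrow, hcol, ?_, ?_⟩
  · rintro ⟨ω₁, ω₂⟩ hne
    by_contra hcon
    apply hne
    rw [hw, if_neg hcon]
  intro α β _ _ V₁ V₂ hV1 hV2
  obtain ⟨q₁, hq₁⟩ : ∃ q₁ : Ω₁ → ℝ, ∀ ω, q₁ ω = ∑ ω', if V₁ ω' = V₁ ω then p₁ ω' else 0 :=
    ⟨_, fun _ => rfl⟩
  obtain ⟨q₂, hq₂⟩ : ∃ q₂ : Ω₂ → ℝ, ∀ ω, q₂ ω = ∑ ω', if V₂ ω' = V₂ ω then p₂ ω' else 0 :=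
    ⟨_, fun _ => rfl⟩
  have key : ∀ ω₁ ω₂, w (ω₁, ω₂) * Real.log (∑ ω' : Ω₁ × Ω₂,
      if (V₁ ω'.1, V₂ ω'.2) = (V₁ ω₁, V₂ ω₂) then w ω' else 0) =
      w (ω₁, ω₂) * Real.log (q₁ ω₁) + w (ω₁, ω₂) * Real.log (q₂ ω₂) -
        w (ω₁, ω₂) * Real.log (m (U₁ ω₁)) := by
    intro ω₁ ω₂
    by_cases hwz : w (ω₁, ω₂) = 0
    · rw [hwz]
      ring
    have hU12 : U₁ ω₁ = U₂ ω₂ := by
      by_contra hcon
      exact hwz (by rw [hw, if_neg hcon])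
    have hwe : w (ω₁, ω₂) = p₁ ω₁ * p₂ ω₂ / m (U₁ ω₁) := by rw [hw, if_pos hU12]
    rw [hwe] at hwz
    have hp1 : p₁ ω₁ ≠ 0 := fun h => hwz (by rw [h, zero_mul, zero_div])
    have hp2 : p₂ ω₂ ≠ 0 := fun h => hwz (by rw [h, mul_zero, zero_div])
    have hmne : m (U₁ ω₁) ≠ 0 := fun h => hwz (by rw [h, div_zero])
    have hq1 : 0 < q₁ ω₁ := by
      have h3 : p₁ ω₁ ≤ q₁ ω₁ := by rw [hq₁]; exact glue_le p₁ V₁ h₁ ω₁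
      have h4 : 0 < p₁ ω₁ := lt_of_le_of_ne (h₁ _) (Ne.symm hp1)
      linarith
    have hq2 : 0 < q₂ ω₂ := by
      have h3 : p₂ ω₂ ≤ q₂ ω₂ := by rw [hq₂]; exact glue_le p₂ V₂ h₂ ω₂
      have h4 : 0 < p₂ ω₂ := lt_of_le_of_ne (h₂ _) (Ne.symm hp2)
      linarith
    have hin : (∑ ω' : Ω₁ × Ω₂, if (V₁ ω'.1, V₂ ω'.2) = (V₁ ω₁, V₂ ω₂) then w ω' else 0) =
        q₁ ω₁ * q₂ ω₂ / m (U₁ ω₁) := by
      rw [Fintype.sum_prod_type, hq₁, hq₂, Finset.sum_mul_sum, Finset.sum_div]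
      refine Finset.sum_congr rfl fun ω₁' _ => ?_
      rw [Finset.sum_div]
      refine Finset.sum_congr rfl fun ω₂' _ => ?_
      by_cases h3 : V₁ ω₁' = V₁ ω₁
      · by_cases h4 : V₂ ω₂' = V₂ ω₂
        · have h5 : U₁ ω₁' = U₁ ω₁ := hV1 _ _ h3
          have h6 : U₂ ω₂' = U₂ ω₂ := hV2 _ _ h4
          rw [if_pos (by rw [h3, h4]), if_pos h3, if_pos h4, hw, if_pos (by rw [h5, h6, hU12]),
            h5]
        · rw [if_neg (fun h => h4 (congrArg Prod.snd h)), if_neg h4, mul_zero, zero_div]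
      · rw [if_neg (fun h => h3 (congrArg Prod.fst h)), if_neg h3, zero_mul, zero_div]
    rw [hin, Real.log_div (mul_ne_zero hq1.ne' hq2.ne') hmne, Real.log_mul hq1.ne' hq2.ne']
    ring
  unfold ent
  have e1 : ∑ ω : Ω₁ × Ω₂, w ω * Real.log (∑ ω' : Ω₁ × Ω₂,
      if (V₁ ω'.1, V₂ ω'.2) = (V₁ ω.1, V₂ ω.2) then w ω' else 0) =
      ∑ ω₁, p₁ ω₁ * Real.log (q₁ ω₁) + ∑ ω₂, p₂ ω₂ * Real.log (q₂ ω₂) -
        ∑ ω₁, p₁ ω₁ * Real.log (m (U₁ ω₁)) := by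
    have e2 : ∀ ω : Ω₁ × Ω₂, w ω * Real.log (∑ ω' : Ω₁ × Ω₂,
      if (V₁ ω'.1, V₂ ω'.2) = (V₁ ω.1, V₂ ω.2) then w ω' else 0) =
      w (ω.1, ω.2) * Real.log (q₁ ω.1) + w (ω.1, ω.2) * Real.log (q₂ ω.2) -
        w (ω.1, ω.2) * Real.log (m (U₁ ω.1)) := fun ω => key ω.1 ω.2
    rw [Finset.sum_congr rfl fun ω _ => e2 ω, Finset.sum_sub_distrib, Finset.sum_add_distrib]
    congr 1
    · congr 1
      · rw [Fintype.sum_prod_type]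
        refine Finset.sum_congr rfl fun ω₁ _ => ?_
        show ∑ y, w (ω₁, y) * Real.log (q₁ ω₁) = p₁ ω₁ * Real.log (q₁ ω₁)
        rw [← Finset.sum_mul, hrow]
      · rw [Fintype.sum_prod_type_right]
        refine Finset.sum_congr rfl fun ω₂ _ => ?_
        show ∑ x, w (x, ω₂) * Real.log (q₂ ω₂) = p₂ ω₂ * Real.log (q₂ ω₂)
        rw [← Finset.sum_mul, hcol]
    · rw [Fintype.sum_prod_type]
      refine Finset.sum_congr rfl fun ω₁ _ => ?_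
      show ∑ y, w (ω₁, y) * Real.log (m (U₁ ω₁)) = p₁ ω₁ * Real.log (m (U₁ ω₁))
      rw [← Finset.sum_mul, hrow]
  rw [e1]
  simp only [← hm, ← hq₁, ← hq₂]
  ring

end Pool.Agent.N372.EN
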