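import Pool.Agent.N372.EN.Stm

/-!
Project EN: Shannon type inequalities for five variables.
Indices: 0 = a, 1 = x, 2 = y, 3 = c, 4 = d; hypothesis I(x; c d | a, y) = 0.
-/

set_option autoImplicit false

namespace Pool.Agent.N372.EN

variable {h : Finset (Fin 5) → ℝ}

theorem subI (sub : ∀ S R, h (S ∪ R) + h (S ∩ R) ≤ h S + h R) (S R U I : Finset (Fin 5))
    (hU : S ∪ R = U) (hI : S ∩ R = I) : h U + h I ≤ h S + h R := by
  subst hU; subst hI; exact sub S R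

theorem pureZ (sub : ∀ S R, h (S ∪ R) + h (S ∩ R) ≤ h S + h R)
    (ci : h {0, 1, 2, 3, 4} + h {0, 2} = h {0, 1, 2} + h {0, 2, 3, 4}) :
    (h {0, 1} + h {0, 3} - h {0, 1, 3} - h {0}) + (h {0, 1} + h {0, 4} - h {0, 1, 4} - h {0})
      ≤ (h {0, 1} + h {0, 2} - h {0, 1, 2} - h {0})
        + (h {0, 3} + h {0, 4} - h {0, 3, 4} - h {0}) := by
  have a1 := subI sub {0, 1, 3} {0, 1, 4} {0, 1, 3, 4} {0, 1} (by decide) (by decide)
  have a2 := subI sub {0, 1, 3, 4} {0, 2, 3, 4} {0, 1, 2, 3, 4} {0, 3, 4} (by decide) (by decide)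
  linarith

theorem pureC (sub : ∀ S R, h (S ∪ R) + h (S ∩ R) ≤ h S + h R)
    (ci : h {0, 1, 2, 3, 4} + h {0, 2} = h {0, 1, 2} + h {0, 2, 3, 4}) :
    (h {0, 1} + h {0, 3} - h {0, 1, 3} - h {0} ≤ h {0, 1} + h {0, 2} - h {0, 1, 2} - h {0}) ∧
    (h {0, 1} + h {1, 3} - h {0, 1, 3} - h {1}
      ≤ (h {0, 1} + h {1, 2} - h {0, 1, 2} - h {1}) + (h {0, 2} + h {2, 3} - h {0, 2, 3} - h {2})) ∧
    (h {0, 3} + h {1, 3} - h {0, 1, 3} - h {3}
      ≤ (h {0, 2} + h {1, 2} - h {0, 1, 2} - h {2})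
        + (h {0, 3} + h {2, 3} - h {0, 2, 3} - h {3})) := by
  have b := subI sub {0, 1, 2, 3} {0, 2, 3, 4} {0, 1, 2, 3, 4} {0, 2, 3} (by decide) (by decide)
  have a1 := subI sub {0, 1, 3} {0, 2, 3} {0, 1, 2, 3} {0, 3} (by decide) (by decide)
  have a2 := subI sub {0, 1, 3} {1, 2, 3} {0, 1, 2, 3} {1, 3} (by decide) (by decide)
  have a3 := subI sub {1, 2} {2, 3} {1, 2, 3} {2} (by decide) (by decide)
  refine ⟨by linarith, by linarith, by linarith⟩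

theorem pureD (sub : ∀ S R, h (S ∪ R) + h (S ∩ R) ≤ h S + h R)
    (ci : h {0, 1, 2, 3, 4} + h {0, 2} = h {0, 1, 2} + h {0, 2, 3, 4}) :
    (h {0, 1} + h {1, 4} - h {0, 1, 4} - h {1}
      ≤ (h {0, 1} + h {1, 2} - h {0, 1, 2} - h {1}) + (h {0, 2} + h {2, 4} - h {0, 2, 4} - h {2})) ∧
    (h {0, 4} + h {1, 4} - h {0, 1, 4} - h {4}
      ≤ (h {0, 2} + h {1, 2} - h {0, 1, 2} - h {2})
        + (h {0, 4} + h {2, 4} - h {0, 2, 4} - h {4})) := by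
  have b := subI sub {0, 1, 2, 4} {0, 2, 3, 4} {0, 1, 2, 3, 4} {0, 2, 4} (by decide) (by decide)
  have a2 := subI sub {0, 1, 4} {1, 2, 4} {0, 1, 2, 4} {1, 4} (by decide) (by decide)
  have a3 := subI sub {1, 2} {2, 4} {1, 2, 4} {2} (by decide) (by decide)
  refine ⟨by linarith, by linarith⟩

/-- Indices: 0 = a, 1 = u, 2 = b, 3 = c, 4 = d. -/
theorem pureA (sub : ∀ S R, h (S ∪ R) + h (S ∩ R) ≤ h S + h R)
    (ci : h {0, 1, 2, 3, 4} + h {0, 2} = h {0, 1, 2} + h {0, 2, 3, 4}) :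
    h {0} + h {2} - h {0, 2} ≤ (h {3} + h {4} - h {3, 4})
      + (h {0, 3} + h {2, 3} - h {0, 2, 3} - h {3})
      + (h {0, 4} + h {2, 4} - h {0, 2, 4} - h {4})
      + 2 * (h {0, 2} + h {1, 2} - h {0, 1, 2} - h {2})
      + 2 * (h {0, 1} + h {0, 2} - h {0, 1, 2} - h {0})
      + (h {0, 1} + h {1, 2} - h {0, 1, 2} - h {1}) := by
  have b3 := subI sub {0, 1, 2, 3} {0, 2, 3, 4} {0, 1, 2, 3, 4} {0, 2, 3} (by decide) (by decide)
  have b4 := subI sub {0, 1, 2, 4} {0, 2, 3, 4} {0, 1, 2, 3, 4} {0, 2, 4} (by decide) (by decide)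
  have d3 := subI sub {0, 1, 2} {0, 2, 3} {0, 1, 2, 3} {0, 2} (by decide) (by decide)
  have d4 := subI sub {0, 1, 2} {0, 2, 4} {0, 1, 2, 4} {0, 2} (by decide) (by decide)
  have a1 := subI sub {0, 1} {0, 3} {0, 1, 3} {0} (by decide) (by decide)
  have a2 := subI sub {0, 1} {0, 4} {0, 1, 4} {0} (by decide) (by decide)
  have a3 := subI sub {0, 1, 3} {1, 2, 3} {0, 1, 2, 3} {1, 3} (by decide) (by decide)
  have a4 := subI sub {0, 1, 4} {1, 2, 4} {0, 1, 2, 4} {1, 4} (by decide) (by decide)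
  have a5 := subI sub {1, 2} {2, 3} {1, 2, 3} {2} (by decide) (by decide)
  have a6 := subI sub {1, 2} {2, 4} {1, 2, 4} {2} (by decide) (by decide)
  have a7 := subI sub {1, 3, 4} {0, 2, 3, 4} {0, 1, 2, 3, 4} {3, 4} (by decide) (by decide)
  have a8 := subI sub {1, 3} {1, 4} {1, 3, 4} {1} (by decide) (by decide)
  have a9 := subI sub {0, 2} {1, 2} {0, 1, 2} {2} (by decide) (by decide)
  have a10 := subI sub {0, 1} {0, 2} {0, 1, 2} {0} (by decide) (by decide)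
  linarith

end Pool.Agent.N372.EN
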