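import Pool.Agent.N372.EN.Fam

/-!
Project EN: the recursion and the family of inequalities.
-/

set_option autoImplicit false

namespace Pool.Agent.N372.EN

variable {Ω T : Type}

/-- conversions for four variables -/
theorem hh4 [Fintype Ω] [DecidableEq T] (p : Ω → ℝ) (X : Fin 4 → Ω → T) :
    hh p X ∅ = -((∑ ω, p ω) * Real.log (∑ ω, p ω)) ∧
    hh p X {0} = ent p (X 0) ∧ hh p X {1} = ent p (X 1) ∧ hh p X {2} = ent p (X 2) ∧
    hh p X {3} = ent p (X 3) ∧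
    hh p X {0, 1} = ent p (fun ω => (X 0 ω, X 1 ω)) ∧
    hh p X {0, 2} = ent p (fun ω => (X 0 ω, X 2 ω)) ∧
    hh p X {0, 3} = ent p (fun ω => (X 0 ω, X 3 ω)) ∧
    hh p X {1, 2} = ent p (fun ω => (X 1 ω, X 2 ω)) ∧
    hh p X {1, 3} = ent p (fun ω => (X 1 ω, X 3 ω)) ∧
    hh p X {2, 3} = ent p (fun ω => (X 2 ω, X 3 ω)) ∧
    hh p X {0, 1, 2} = ent p (fun ω => (X 0 ω, X 1 ω, X 2 ω)) ∧
    hh p X {0, 1, 3} = ent p (fun ω => (X 0 ω, X 1 ω, X 3 ω)) ∧
    hh p X {0, 2, 3} = ent p (fun ω => (X 0 ω, X 2 ω, X 3 ω)) := by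
  refine ⟨?_, ?_, ?_, ?_, ?_, ?_, ?_, ?_, ?_, ?_, ?_, ?_, ?_, ?_⟩
  · unfold hh
    simp [Finset.sum_mul]
  all_goals
  · unfold hh ent
    simp [Prod.mk.injEq]

/-- The chain of copies. -/
theorem recur (h1 : S_SM) (h3 : S_GLUE) [Fintype Ω] [DecidableEq Ω] [DecidableEq T]
    (p : Ω → ℝ) (hp : ∀ ω, 0 ≤ p ω) (a b c d : Ω → T) (G : ℝ)
    (hab : ent p (fun ω => (a ω, b ω)) - ent p a ≤ ent p b)
    (hz : 0 ≤ Iz p a c d)
    (hc : Ir p a b c + Is p a b c ≤ G) (hd : Ir p a b d + Is p a b d ≤ G) (s : ℕ) :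
    ∃ (Ω₁ : Type) (_ : Fintype Ω₁) (_ : DecidableEq Ω₁) (q : Ω₁ → ℝ) (A X Y : Ω₁ → T),
      (∀ ω, 0 ≤ q ω) ∧
      (∀ t, law q (fun ω => (A ω, X ω)) t = law p (fun ω => (a ω, b ω)) t) ∧
      (∀ t, law q (fun ω => (A ω, Y ω)) t = law p (fun ω => (a ω, b ω)) t) ∧
      Iz q A X Y ≤ (1 / 2) ^ s * ent p b + Iz p a c d ∧
      Ir q A X Y ≤ s * G ∧ Is q A X Y ≤ s * G := by
  induction s with
  | zero =>
    have e1 : ent p (fun ω => (a ω, b ω, b ω)) = ent p (fun ω => (a ω, b ω)) :=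
      ent_equiv p (by intro ω ω'; simp)
    have e2 : ent p (fun ω => (b ω, b ω)) = ent p b :=
      ent_equiv p (by intro ω ω'; simp)
    refine ⟨Ω, inferInstance, inferInstance, p, a, b, b, hp, fun _ => rfl, fun _ => rfl,
      ?_, ?_, ?_⟩
    · unfold Iz at hz ⊢
      rw [e1]
      simp only [pow_zero, one_mul]
      linarith
    · unfold Ir
      rw [e1, e2]
      simp
    · unfold Is
      rw [e1, e2]
      simp
  | succ s ih =>
    obtain ⟨Ω₁, i1, i2, q, A, X, Y, hq, hl1, hl2, bz, br, bs⟩ := ih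
    obtain ⟨w, hw0, lx, lc, ld, -, zsum, rc, sc, rd, sd⟩ :=
      stepL h1 h3 q p hq hp A X Y a b c d hl2
    have pw : ((1 : ℝ) / 2) ^ (s + 1) = (1 / 2) ^ s / 2 := by ring
    have key : ∀ (e : Ω → T), (∀ t, law w (fun ω => (A ω.1, e ω.2)) t
          = law p (fun ω => (a ω, e ω)) t) →
        Iz w (fun ω => A ω.1) (fun ω => X ω.1) (fun ω => e ω.2)
          ≤ ((1 / 2) ^ s * ent p b) / 2 + Iz p a c d →
        Ir w (fun ω => A ω.1) (fun ω => X ω.1) (fun ω => e ω.2) ≤ s * G + Ir p a b e →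
        Is w (fun ω => A ω.1) (fun ω => X ω.1) (fun ω => e ω.2) ≤ s * G + Is p a b e →
        Ir p a b e + Is p a b e ≤ G →
        ∃ (Ω₁ : Type) (_ : Fintype Ω₁) (_ : DecidableEq Ω₁) (q : Ω₁ → ℝ) (A X Y : Ω₁ → T),
          (∀ ω, 0 ≤ q ω) ∧
          (∀ t, law q (fun ω => (A ω, X ω)) t = law p (fun ω => (a ω, b ω)) t) ∧
          (∀ t, law q (fun ω => (A ω, Y ω)) t = law p (fun ω => (a ω, b ω)) t) ∧
          Iz q A X Y ≤ (1 / 2) ^ (s + 1) * ent p b + Iz p a c d ∧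
          Ir q A X Y ≤ (s + 1 : ℕ) * G ∧ Is q A X Y ≤ (s + 1 : ℕ) * G := by
      intro e le ze re se ge
      obtain ⟨w', hw0', lx', lb', -, z', -, r', s', -, -⟩ :=
        stepL h1 h3 w p hw0 hp (fun ω => A ω.1) (fun ω => X ω.1) (fun ω => e ω.2) a e b b le
      refine ⟨(Ω₁ × Ω) × Ω, inferInstance, inferInstance, w', fun ω => A ω.1.1,
        fun ω => X ω.1.1, fun ω => b ω.2, hw0', ?_, ?_, ?_, ?_, ?_⟩
      · intro t
        rw [lx' t, lx t, hl1 t]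
      · intro t
        exact lb' t
      · rw [pw]
        linarith
      · rw [Ir_swap p a b e] at r'
        push_cast
        linarith
      · rw [Is_swap p a b e] at s'
        push_cast
        linarith
    by_cases hcd : Iz w (fun ω => A ω.1) (fun ω => X ω.1) (fun ω => c ω.2)
        ≤ Iz w (fun ω => A ω.1) (fun ω => X ω.1) (fun ω => d ω.2)
    · exact key c lc (by linarith) (by linarith) (by linarith) hc
    · push Not at hcd
      exact key d ld (by linarith) (by linarith) (by linarith) hd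

theorem fam (h1 : S_SM) (h3 : S_GLUE) : S_FAM := by
  intro Ω T _ _ _ p X hp hsum s
  obtain ⟨eE, e0, e1, e2, e3, e01, e02, e03, e12, e13, e23, e012, e013, e023⟩ := hh4 p X
  have sub := fun S R => h1 (Fin 4) Ω T p X S R hp
  have hE : hh p X ∅ = 0 := by rw [eE, hsum]; simp
  have subI4 : ∀ (S R U I : Finset (Fin 4)), S ∪ R = U → S ∩ R = I →
      hh p X U + hh p X I ≤ hh p X S + hh p X R := by
    intro S R U I hU hI
    subst hU; subst hI; exact sub S R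
  have i01 := subI4 {0} {1} {0, 1} ∅ (by decide) (by decide)
  have i23 := subI4 {2} {3} {2, 3} ∅ (by decide) (by decide)
  have i1 := subI4 {0, 2} {0, 3} {0, 2, 3} {0} (by decide) (by decide)
  have i2 := subI4 {0, 2} {1, 2} {0, 1, 2} {2} (by decide) (by decide)
  have i3 := subI4 {0, 3} {1, 3} {0, 1, 3} {3} (by decide) (by decide)
  have i4 := subI4 {0, 1} {1, 2} {0, 1, 2} {1} (by decide) (by decide)
  have i5 := subI4 {0, 1} {1, 3} {0, 1, 3} {1} (by decide) (by decide)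
  rw [hE] at i01 i23
  rw [e0, e1, e01] at i01
  rw [e2, e3, e23] at i23
  rw [e02, e03, e023, e0] at i1
  rw [e02, e12, e012, e2] at i2
  rw [e03, e13, e013, e3] at i3
  rw [e01, e12, e012, e1] at i4
  rw [e01, e13, e013, e1] at i5
  have hz : 0 ≤ Iz p (X 0) (X 2) (X 3) := by unfold Iz; linarith
  have hrc : 0 ≤ Ir p (X 0) (X 1) (X 2) := by unfold Ir; linarith
  have hrd : 0 ≤ Ir p (X 0) (X 1) (X 3) := by unfold Ir; linarith
  have hsc : 0 ≤ Is p (X 0) (X 1) (X 2) := by unfold Is; linarith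
  have hsd : 0 ≤ Is p (X 0) (X 1) (X 3) := by unfold Is; linarith
  obtain ⟨Ω₁, j1, j2, q, A, Y, Z, hq, hl1, hl2, bz, br, bs⟩ :=
    recur h1 h3 p hp (X 0) (X 1) (X 2) (X 3)
      (Ir p (X 0) (X 1) (X 2) + Is p (X 0) (X 1) (X 2)
        + (Ir p (X 0) (X 1) (X 3) + Is p (X 0) (X 1) (X 3)))
      (by linarith) hz (by linarith) (by linarith) s
  have fin := lastL h1 h3 q p hq hp A Y Z (X 0) (X 1) (X 2) (X 3) hl1
  have hf : fI (hh p X) = ent p (X 0) + ent p (X 1) - ent p (fun ω => (X 0 ω, X 1 ω)) := by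
    unfold fI; rw [e0, e1, e01]
  have hg : gI (hh p X) = (ent p (X 2) + ent p (X 3) - ent p (fun ω => (X 2 ω, X 3 ω)))
      + Iz p (X 0) (X 2) (X 3) + Is p (X 0) (X 1) (X 2) + Is p (X 0) (X 1) (X 3)
      + Ir p (X 0) (X 1) (X 2) + Ir p (X 0) (X 1) (X 3) := by
    unfold gI Iz Is Ir
    rw [e0, e1, e2, e3, e01, e02, e03, e12, e13, e23, e012, e013, e023]
  rw [hf, hg, e1]
  have hs0 : (0 : ℝ) ≤ s := Nat.cast_nonneg s
  have hcd : 0 ≤ ent p (X 2) + ent p (X 3) - ent p (fun ω => (X 2 ω, X 3 ω)) := by linarith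
  set I0 := ent p (X 2) + ent p (X 3) - ent p (fun ω => (X 2 ω, X 3 ω))
  set I1 := Iz p (X 0) (X 2) (X 3)
  set I2 := Is p (X 0) (X 1) (X 2)
  set I3 := Is p (X 0) (X 1) (X 3)
  set I4 := Ir p (X 0) (X 1) (X 2)
  set I5 := Ir p (X 0) (X 1) (X 3)
  have m0 := mul_nonneg hs0 hcd
  have m1 := mul_nonneg hs0 hz
  have : (3 * (s : ℝ) + 2) * (I0 + I1 + I2 + I3 + I4 + I5)
      = 3 * (s * (I4 + I2 + (I5 + I3))) + 3 * (s * I0) + 3 * (s * I1)
        + 2 * (I0 + I1 + I2 + I3 + I4 + I5) := by ring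
  rw [this]
  have pr : 2 * ((1 / 2) ^ s * ent p (X 1)) = 2 * (1 / 2) ^ s * ent p (X 1) := by ring
  linarith

end Pool.Agent.N372.EN
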