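import Pool.Agent.N372.EN.Stm

/-!
Project EN (MP_4da6ae_lc), leaf SEMI (helper713): a semialgebraic subset of the plane which is
upward closed does not have a positive, exponentially small boundary.
-/

set_option autoImplicit false

open Polynomial Filter Topology

namespace Pool.Agent.N372.EN

namespace Semi

theorem ee_eq (x y : ℝ) (Q : Polynomial (Polynomial ℝ)) :
    evalEval x y Q = eval y (Q.map (evalRingHom x)) := by
  rw [← eval₂_evalRingHom, eval_map]

theorem ee_sum (x y : ℝ) (Q : Polynomial (Polynomial ℝ)) :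
    evalEval x y Q = ∑ i ∈ Finset.range (Q.natDegree + 1), (Q.coeff i).eval x * y ^ i := by
  rw [← eval₂_evalRingHom, eval₂_eq_sum_range]
  rfl

theorem ee_cont (x : ℝ) (Q : Polynomial (Polynomial ℝ)) :
    Continuous fun y : ℝ => evalEval x y Q := by
  have h : (fun y : ℝ => evalEval x y Q) = fun y => eval y (Q.map (evalRingHom x)) :=
    funext fun y => ee_eq x y Q
  rw [h]
  exact Polynomial.continuous _

/-- polynomials of `s` times `(1 / 2) ^ s` tend to zero -/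
theorem lim0 (r : Polynomial ℝ) :
    Tendsto (fun s : ℕ => (1 / 2 : ℝ) ^ s * r.eval (3 * (s : ℝ) + 2)) atTop (𝓝 0) := by
  have h1 : ∀ s : ℕ, (1 / 2 : ℝ) ^ s * r.eval (3 * (s : ℝ) + 2) =
      ∑ i ∈ Finset.range ((r.comp (C 3 * X + C 2)).natDegree + 1),
        (r.comp (C 3 * X + C 2)).coeff i * ((s : ℝ) ^ i * (1 / 2) ^ s) := by
    intro s
    have h2 : r.eval (3 * (s : ℝ) + 2) = (r.comp (C 3 * X + C 2)).eval (s : ℝ) := by
      rw [eval_comp]
      simp
    rw [h2, eval_eq_sum_range, Finset.mul_sum]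
    exact Finset.sum_congr rfl fun i _ => by ring
  have h3 : Tendsto (fun s : ℕ => ∑ i ∈ Finset.range ((r.comp (C 3 * X + C 2)).natDegree + 1),
      (r.comp (C 3 * X + C 2)).coeff i * ((s : ℝ) ^ i * (1 / 2) ^ s)) atTop
      (𝓝 (∑ i ∈ Finset.range ((r.comp (C 3 * X + C 2)).natDegree + 1),
        (r.comp (C 3 * X + C 2)).coeff i * 0)) := by
    refine tendsto_finsetSum _ fun i _ => Tendsto.const_mul _ ?_
    exact tendsto_pow_const_mul_const_pow_of_abs_lt_one i (by rw [abs_lt]; norm_num)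
  rw [Finset.sum_congr rfl fun i _ => mul_zero _, Finset.sum_const_zero] at h3
  exact h3.congr fun s => (h1 s).symm

/-- a polynomial whose values at `3 s + 2` tend to zero is zero -/
theorem zero_of_lim (a : Polynomial ℝ)
    (h : Tendsto (fun s : ℕ => |a.eval (3 * (s : ℝ) + 2)|) atTop (𝓝 0)) : a = 0 := by
  have hx : Tendsto (fun s : ℕ => 3 * (s : ℝ) + 2) atTop atTop :=
    tendsto_atTop_add_const_right _ _
      (tendsto_natCast_atTop_atTop.const_mul_atTop (by norm_num))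
  by_cases hd : 0 < a.degree
  · have h1 := (Polynomial.abs_tendsto_atTop a hd).comp hx
    exact absurd h1 (not_tendsto_atTop_of_tendsto_nhds h)
  · have h2 := eq_C_of_degree_le_zero (not_lt.1 hd)
    rw [h2] at h ⊢
    simp only [eval_C] at h
    have h3 := tendsto_nhds_unique h tendsto_const_nhds
    rw [abs_eq_zero.1 h3.symm, C_0]

/-- no exponentially small positive zeros -/
theorem no_small (P : Polynomial (Polynomial ℝ)) (hP : P ≠ 0) (Y : ℕ → ℝ)
    (h0 : ∀ s, 0 < Y s) (h1 : ∀ s, Y s ≤ 2 * (1 / 2) ^ s)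
    (h : ∀ s : ℕ, evalEval (3 * (s : ℝ) + 2) (Y s) P = 0) : False := by
  obtain ⟨Q, hPQ, hQ⟩ := exists_eq_pow_rootMultiplicity_mul_and_not_dvd P hP 0
  rw [C_0, sub_zero] at hPQ hQ
  have hQ0 : ∀ s : ℕ, evalEval (3 * (s : ℝ) + 2) (Y s) Q = 0 := by
    intro s
    have h2 := h s
    rw [hPQ, evalEval_mul, evalEval_pow, evalEval_X] at h2
    rcases mul_eq_zero.1 h2 with h3 | h3
    · exact absurd h3 (pow_ne_zero _ (h0 s).ne')
    · exact h3
  apply hQ
  rw [X_dvd_iff]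
  apply zero_of_lim
  -- the bound
  set R := Q.divX with hR
  have hdec : ∀ s : ℕ, (Q.coeff 0).eval (3 * (s : ℝ) + 2) =
      -(Y s * evalEval (3 * (s : ℝ) + 2) (Y s) R) := by
    intro s
    have h2 := hQ0 s
    rw [← divX_mul_X_add Q, evalEval_add, evalEval_mul, evalEval_X, evalEval_C] at h2
    rw [hR]
    linarith
  have hbd : ∀ s : ℕ, |(Q.coeff 0).eval (3 * (s : ℝ) + 2)| ≤
      ∑ i ∈ Finset.range (R.natDegree + 1),
        2 * 2 ^ i * |(1 / 2 : ℝ) ^ s * (R.coeff i).eval (3 * (s : ℝ) + 2)| := by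
    intro s
    rw [hdec, abs_neg, abs_mul, abs_of_pos (h0 s), ee_sum]
    have hY2 : Y s ≤ 2 := by
      refine (h1 s).trans ?_
      have : (1 / 2 : ℝ) ^ s ≤ 1 := pow_le_one₀ (by norm_num) (by norm_num)
      linarith
    calc Y s * |∑ i ∈ Finset.range (R.natDegree + 1),
          (R.coeff i).eval (3 * (s : ℝ) + 2) * Y s ^ i|
        ≤ 2 * (1 / 2) ^ s * ∑ i ∈ Finset.range (R.natDegree + 1),
          |(R.coeff i).eval (3 * (s : ℝ) + 2)| * 2 ^ i := by
          refine mul_le_mul (h1 s) ?_ (abs_nonneg _) (by positivity)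
          refine (Finset.abs_sum_le_sum_abs _ _).trans (Finset.sum_le_sum fun i _ => ?_)
          rw [abs_mul, abs_of_nonneg (pow_nonneg (h0 s).le i)]
          exact mul_le_mul_of_nonneg_left (pow_le_pow_left₀ (h0 s).le hY2 i) (abs_nonneg _)
      _ = ∑ i ∈ Finset.range (R.natDegree + 1),
          2 * 2 ^ i * |(1 / 2 : ℝ) ^ s * (R.coeff i).eval (3 * (s : ℝ) + 2)| := by
          rw [Finset.mul_sum]
          refine Finset.sum_congr rfl fun i _ => ?_
          rw [abs_mul, abs_of_nonneg (by positivity : (0 : ℝ) ≤ (1 / 2) ^ s)]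
          ring
  have hlim : Tendsto (fun s : ℕ => ∑ i ∈ Finset.range (R.natDegree + 1),
      2 * 2 ^ i * |(1 / 2 : ℝ) ^ s * (R.coeff i).eval (3 * (s : ℝ) + 2)|) atTop
      (𝓝 (∑ i ∈ Finset.range (R.natDegree + 1), 2 * 2 ^ i * |(0 : ℝ)|)) :=
    tendsto_finsetSum _ fun i _ => Tendsto.const_mul _ (lim0 (R.coeff i)).abs
  rw [Finset.sum_congr rfl fun i _ => (by rw [abs_zero, mul_zero] :
    (2 * 2 ^ i * |(0 : ℝ)|) = 0), Finset.sum_const_zero] at hlim
  exact squeeze_zero (fun s => abs_nonneg _) hbd hlim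

/-- the signs of a polynomial are locally constant where it does not vanish -/
theorem loc (x y₀ : ℝ) (Q : Polynomial (Polynomial ℝ)) (h : Q = 0 ∨ evalEval x y₀ Q ≠ 0) :
    ∀ᶠ y in 𝓝 y₀, (evalEval x y Q = 0 ↔ evalEval x y₀ Q = 0) ∧
      (0 < evalEval x y Q ↔ 0 < evalEval x y₀ Q) := by
  rcases h with rfl | h
  · exact Eventually.of_forall fun y => by simp only [evalEval_zero, iff_self, and_self]
  · have hc := (ee_cont x Q).continuousAt (x := y₀)
    rcases lt_or_gt_of_ne h with h1 | h1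
    · filter_upwards [hc.eventually (gt_mem_nhds h1)] with y hy
      exact ⟨⟨fun h2 => absurd h2 hy.ne, fun h2 => absurd h2 h⟩,
        ⟨fun h2 => absurd h2 (lt_asymm hy), fun h2 => absurd h2 (lt_asymm h1)⟩⟩
    · filter_upwards [hc.eventually (lt_mem_nhds h1)] with y hy
      exact ⟨⟨fun h2 => absurd h2 hy.ne', fun h2 => absurd h2 h⟩, ⟨fun _ => h1, fun _ => hy⟩⟩

open Classical in
/-- the product of the nonzero polynomials -/
noncomputable def nz (Q : Polynomial (Polynomial ℝ)) : Polynomial (Polynomial ℝ) :=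
  if Q = 0 then 1 else Q

theorem nz_ne (Q : Polynomial (Polynomial ℝ)) : nz Q ≠ 0 := by
  unfold nz
  split_ifs with h
  · exact one_ne_zero
  · exact h

theorem nz_ee {Q : Polynomial (Polynomial ℝ)} {x y : ℝ} (h : evalEval x y (nz Q) ≠ 0) :
    Q = 0 ∨ evalEval x y Q ≠ 0 := by
  unfold nz at h
  split_ifs at h with h1
  · exact Or.inl h1
  · exact Or.inr h

end Semi

open Semi in
theorem semi : S_SEMI := by
  intro n m F G W hW hup hlow hhi
  set P : Polynomial (Polynomial ℝ) := (∏ j, nz (F j)) * ∏ j, ∏ l, nz (G j l) with hPdef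
  have hP : P ≠ 0 := mul_ne_zero (Finset.prod_ne_zero_iff.2 fun j _ => nz_ne _)
    (Finset.prod_ne_zero_iff.2 fun j _ => Finset.prod_ne_zero_iff.2 fun l _ => nz_ne _)
  set Y : ℕ → ℝ := fun s => sInf {y | W (3 * (s : ℝ) + 2) y} with hY
  have hbdd : ∀ s : ℕ, ∃ e > 0, ∀ y, W (3 * (s : ℝ) + 2) y → e ≤ y := by
    intro s
    obtain ⟨e, he, h⟩ := hlow s
    exact ⟨e, he, fun y hy => not_lt.1 fun hlt => h y hlt hy⟩
  have hBB : ∀ s : ℕ, BddBelow {y | W (3 * (s : ℝ) + 2) y} := fun s => by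
    obtain ⟨e, _, h⟩ := hbdd s
    exact ⟨e, fun y hy => h y hy⟩
  have hne : ∀ s : ℕ, {y | W (3 * (s : ℝ) + 2) y}.Nonempty := fun s => ⟨_, hhi s⟩
  have hY0 : ∀ s, 0 < Y s := by
    intro s
    obtain ⟨e, he, h⟩ := hbdd s
    exact lt_of_lt_of_le he (le_csInf (hne s) fun y hy => h y hy)
  have hY1 : ∀ s, Y s ≤ 2 * (1 / 2) ^ s := fun s => csInf_le (hBB s) (hhi s)
  refine no_small P hP Y hY0 hY1 fun s => ?_
  by_contra hPs
  rw [hPdef, evalEval_mul, evalEval_prod, evalEval_prod] at hPs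
  have hF : ∀ j, F j = 0 ∨ evalEval (3 * (s : ℝ) + 2) (Y s) (F j) ≠ 0 := fun j =>
    nz_ee (Finset.prod_ne_zero_iff.1 (left_ne_zero_of_mul hPs) j (Finset.mem_univ j))
  have hG : ∀ j l, G j l = 0 ∨ evalEval (3 * (s : ℝ) + 2) (Y s) (G j l) ≠ 0 := fun j l => by
    have h1 := Finset.prod_ne_zero_iff.1 (right_ne_zero_of_mul hPs) j (Finset.mem_univ j)
    rw [evalEval_prod] at h1
    exact nz_ee (Finset.prod_ne_zero_iff.1 h1 l (Finset.mem_univ l))
  have hev : ∀ᶠ y in 𝓝 (Y s), (W (3 * (s : ℝ) + 2) y ↔ W (3 * (s : ℝ) + 2) (Y s)) := by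
    have e1 : ∀ᶠ y in 𝓝 (Y s), ∀ j, (evalEval (3 * (s : ℝ) + 2) y (F j) = 0 ↔
        evalEval (3 * (s : ℝ) + 2) (Y s) (F j) = 0) :=
      eventually_all.2 fun j => (loc _ _ _ (hF j)).mono fun y hy => hy.1
    have e2 : ∀ᶠ y in 𝓝 (Y s), ∀ j l, (0 < evalEval (3 * (s : ℝ) + 2) y (G j l) ↔
        0 < evalEval (3 * (s : ℝ) + 2) (Y s) (G j l)) :=
      eventually_all.2 fun j => eventually_all.2 fun l =>
        (loc _ _ _ (hG j l)).mono fun y hy => hy.2
    filter_upwards [e1, e2] with y h1 h2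
    rw [hW, hW]
    exact exists_congr fun j => and_congr (h1 j) (forall_congr' fun l => h2 j l)
  by_cases hWY : W (3 * (s : ℝ) + 2) (Y s)
  · obtain ⟨y, hy, hlt⟩ := ((hev.filter_mono nhdsWithin_le_nhds).and
      (self_mem_nhdsWithin (s := Set.Iio (Y s)))).exists
    exact absurd (csInf_le (hBB s) (hy.2 hWY)) (not_le.2 hlt)
  · obtain ⟨y, hy, hlt⟩ := ((hev.filter_mono nhdsWithin_le_nhds).and
      (self_mem_nhdsWithin (s := Set.Ioi (Y s)))).exists
    obtain ⟨y', hy', hlt'⟩ := exists_lt_of_csInf_lt (hne s) (show Y s < y from hlt)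
    exact hWY (hy.1 (hup _ _ _ hlt'.le hy'))

end Pool.Agent.N372.EN
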