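import Pool.Agent.N372.EN.Stm

/-!
Project EN, file Sm: submodularity and monotonicity of entropy.
-/

set_option autoImplicit false

namespace Pool.Agent.N372.EN

namespace SmAux

variable {ι Ω T : Type} [Fintype Ω] [DecidableEq T]

/-- the weight of the class of `ω` -/
noncomputable def q (p : Ω → ℝ) (X : ι → Ω → T) (S : Finset ι) (ω : Ω) : ℝ :=
  ∑ ω', if (∀ i ∈ S, X i ω' = X i ω) then p ω' else 0

lemma q_ge (p : Ω → ℝ) (X : ι → Ω → T) (S : Finset ι) (hp : ∀ ω, 0 ≤ p ω) (ω : Ω) :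
    p ω ≤ q p X S ω := by
  classical
  unfold q
  have h := Finset.single_le_sum (f := fun ω' => if (∀ i ∈ S, X i ω' = X i ω) then p ω' else 0)
    (fun ω' _ => by split <;> simp [hp]) (Finset.mem_univ ω)
  simpa using h

lemma q_nonneg (p : Ω → ℝ) (X : ι → Ω → T) (S : Finset ι) (hp : ∀ ω, 0 ≤ p ω) (ω : Ω) :
    0 ≤ q p X S ω := (hp ω).trans (q_ge p X S hp ω)

lemma q_anti (p : Ω → ℝ) (X : ι → Ω → T) (S R : Finset ι) (hp : ∀ ω, 0 ≤ p ω) (h : S ⊆ R)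
    (ω : Ω) : q p X R ω ≤ q p X S ω := by
  unfold q
  refine Finset.sum_le_sum fun ω' _ => ?_
  by_cases h1 : ∀ i ∈ R, X i ω' = X i ω
  · rw [if_pos h1, if_pos fun i hi => h1 i (h hi)]
  · rw [if_neg h1]
    split <;> simp [hp]

lemma q_congr (p : Ω → ℝ) (X : ι → Ω → T) (S : Finset ι) (ω ω' : Ω)
    (h : ∀ i ∈ S, X i ω = X i ω') : q p X S ω = q p X S ω' := by
  unfold q
  refine Finset.sum_congr rfl fun ω'' _ => ?_
  have : (∀ i ∈ S, X i ω'' = X i ω) ↔ (∀ i ∈ S, X i ω'' = X i ω') :=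
    ⟨fun H i hi => (H i hi).trans (h i hi), fun H i hi => (H i hi).trans (h i hi).symm⟩
  by_cases h1 : ∀ i ∈ S, X i ω'' = X i ω
  · rw [if_pos h1, if_pos (this.mp h1)]
  · rw [if_neg h1, if_neg (fun H => h1 (this.mpr H))]

lemma hh_eq (p : Ω → ℝ) (X : ι → Ω → T) (S : Finset ι) :
    hh p X S = -∑ ω, p ω * Real.log (q p X S ω) := rfl

lemma inner_le [DecidableEq ι] (p : Ω → ℝ) (X : ι → Ω → T) (S R : Finset ι)
    (hp : ∀ ω, 0 ≤ p ω) (ω₁ ω₂ : Ω) :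
    (∑ ω, if (∀ i ∈ S, X i ω₁ = X i ω) ∧ (∀ i ∈ R, X i ω₂ = X i ω) then
      p ω / (q p X (S ∪ R) ω * q p X (S ∩ R) ω) else 0) ≤
    if (∀ i ∈ S ∩ R, X i ω₂ = X i ω₁) then 1 / q p X (S ∩ R) ω₁ else 0 := by
  by_cases h : ∃ ω₀, (∀ i ∈ S, X i ω₁ = X i ω₀) ∧ (∀ i ∈ R, X i ω₂ = X i ω₀)
  · obtain ⟨ω₀, h1, h2⟩ := h
    have h12 : ∀ i ∈ S ∩ R, X i ω₂ = X i ω₁ := fun i hi => by
      rw [h2 i (Finset.mem_inter.mp hi).2, h1 i (Finset.mem_inter.mp hi).1]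
    rw [if_pos h12]
    have e1 : ∀ ω, (if (∀ i ∈ S, X i ω₁ = X i ω) ∧ (∀ i ∈ R, X i ω₂ = X i ω) then
        p ω / (q p X (S ∪ R) ω * q p X (S ∩ R) ω) else 0) =
        (if (∀ i ∈ S ∪ R, X i ω = X i ω₀) then p ω else 0) *
          (1 / (q p X (S ∪ R) ω₀ * q p X (S ∩ R) ω₁)) := by
      intro ω
      by_cases h3 : ∀ i ∈ S ∪ R, X i ω = X i ω₀
      · have h4 : (∀ i ∈ S, X i ω₁ = X i ω) ∧ (∀ i ∈ R, X i ω₂ = X i ω) :=
          ⟨fun i hi => (h1 i hi).trans (h3 i (Finset.mem_union_left _ hi)).symm,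
            fun i hi => (h2 i hi).trans (h3 i (Finset.mem_union_right _ hi)).symm⟩
        rw [if_pos h3, if_pos h4, q_congr p X (S ∪ R) ω ω₀ h3,
          q_congr p X (S ∩ R) ω ω₁ fun i hi => (h4.1 i (Finset.mem_inter.mp hi).1).symm]
        ring
      · rw [if_neg h3, zero_mul, if_neg]
        rintro ⟨h4, h5⟩
        apply h3
        intro i hi
        rcases Finset.mem_union.mp hi with h6 | h6
        · exact (h4 i h6).symm.trans (h1 i h6)
        · exact (h5 i h6).symm.trans (h2 i h6)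
    rw [Finset.sum_congr rfl fun ω _ => e1 ω, ← Finset.sum_mul]
    change q p X (S ∪ R) ω₀ * (1 / (q p X (S ∪ R) ω₀ * q p X (S ∩ R) ω₁)) ≤ _
    have h5 := q_nonneg p X (S ∪ R) hp ω₀
    have h6 := q_nonneg p X (S ∩ R) hp ω₁
    rcases h5.eq_or_lt with h7 | h7
    · rw [← h7, zero_mul]
      positivity
    · rw [one_div, mul_inv, ← mul_assoc, mul_inv_cancel₀ h7.ne', one_mul, one_div]
  · rw [Finset.sum_eq_zero]
    · have h6 := q_nonneg p X (S ∩ R) hp ω₁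
      split <;> positivity
    · intro ω _
      rw [if_neg]
      intro h1
      exact h ⟨ω, h1⟩

lemma key [DecidableEq ι] (p : Ω → ℝ) (X : ι → Ω → T) (S R : Finset ι)
    (hp : ∀ ω, 0 ≤ p ω) :
    ∑ ω, p ω * (q p X S ω * q p X R ω / (q p X (S ∪ R) ω * q p X (S ∩ R) ω)) ≤ ∑ ω, p ω := by
  have e1 : ∀ ω, p ω * (q p X S ω * q p X R ω / (q p X (S ∪ R) ω * q p X (S ∩ R) ω)) =
      ∑ ω₁, ∑ ω₂, p ω₁ * p ω₂ *
        (if (∀ i ∈ S, X i ω₁ = X i ω) ∧ (∀ i ∈ R, X i ω₂ = X i ω) then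
          p ω / (q p X (S ∪ R) ω * q p X (S ∩ R) ω) else 0) := by
    intro ω
    have : q p X S ω * q p X R ω = ∑ ω₁, ∑ ω₂, p ω₁ * p ω₂ *
        (if (∀ i ∈ S, X i ω₁ = X i ω) ∧ (∀ i ∈ R, X i ω₂ = X i ω) then 1 else 0) := by
      unfold q
      rw [Finset.sum_mul_sum]
      refine Finset.sum_congr rfl fun ω₁ _ => Finset.sum_congr rfl fun ω₂ _ => ?_
      by_cases h1 : ∀ i ∈ S, X i ω₁ = X i ω
      · by_cases h2 : ∀ i ∈ R, X i ω₂ = X i ω
        · rw [if_pos h1, if_pos h2, if_pos ⟨h1, h2⟩, mul_one]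
        · have h3 : ¬ ((∀ i ∈ S, X i ω₁ = X i ω) ∧ (∀ i ∈ R, X i ω₂ = X i ω)) := fun h => h2 h.2
          rw [if_neg h2, if_neg h3, mul_zero, mul_zero]
      · have h3 : ¬ ((∀ i ∈ S, X i ω₁ = X i ω) ∧ (∀ i ∈ R, X i ω₂ = X i ω)) := fun h => h1 h.1
        rw [if_neg h1, if_neg h3, mul_zero, zero_mul]
    rw [mul_div_assoc', mul_comm (p ω), mul_div_assoc, this, Finset.sum_mul]
    refine Finset.sum_congr rfl fun ω₁ _ => ?_
    rw [Finset.sum_mul]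
    refine Finset.sum_congr rfl fun ω₂ _ => ?_
    split <;> ring
  rw [Finset.sum_congr rfl fun ω _ => e1 ω, Finset.sum_comm]
  refine Finset.sum_le_sum fun ω₁ _ => ?_
  rw [Finset.sum_comm]
  have e2 : ∀ ω₂, ∑ ω, p ω₁ * p ω₂ *
        (if (∀ i ∈ S, X i ω₁ = X i ω) ∧ (∀ i ∈ R, X i ω₂ = X i ω) then
          p ω / (q p X (S ∪ R) ω * q p X (S ∩ R) ω) else 0) ≤
      (p ω₁ / q p X (S ∩ R) ω₁) * (if (∀ i ∈ S ∩ R, X i ω₂ = X i ω₁) then p ω₂ else 0) := by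
    intro ω₂
    rw [← Finset.mul_sum]
    refine (mul_le_mul_of_nonneg_left (inner_le p X S R hp ω₁ ω₂)
      (mul_nonneg (hp _) (hp _))).trans (le_of_eq ?_)
    split <;> ring
  refine (Finset.sum_le_sum fun ω₂ _ => e2 ω₂).trans ?_
  rw [← Finset.mul_sum]
  change p ω₁ / q p X (S ∩ R) ω₁ * q p X (S ∩ R) ω₁ ≤ p ω₁
  rcases (q_nonneg p X (S ∩ R) hp ω₁).eq_or_lt with h7 | h7
  · rw [← h7, mul_zero]
    exact hp _
  · rw [div_mul_cancel₀ _ h7.ne']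

end SmAux

open SmAux

theorem mo : S_MO := by
  intro ι Ω T _ _ p X S R hp hSR
  rw [hh_eq, hh_eq, neg_le_neg_iff]
  refine Finset.sum_le_sum fun ω _ => ?_
  rcases (hp ω).eq_or_lt with h | h
  · rw [← h, zero_mul, zero_mul]
  · exact mul_le_mul_of_nonneg_left
      (Real.log_le_log (h.trans_le (q_ge p X R hp ω)) (q_anti p X S R hp hSR ω)) h.le

theorem sm : S_SM := by
  intro ι Ω T _ _ _ p X S R hp
  have h1 : ∑ ω, p ω * (Real.log (q p X S ω) + Real.log (q p X R ω) -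
      Real.log (q p X (S ∪ R) ω) - Real.log (q p X (S ∩ R) ω)) ≤
      ∑ ω, (p ω * (q p X S ω * q p X R ω / (q p X (S ∪ R) ω * q p X (S ∩ R) ω)) - p ω) := by
    refine Finset.sum_le_sum fun ω _ => ?_
    rcases (hp ω).eq_or_lt with h | h
    · rw [← h]; simp
    · have hS := h.trans_le (q_ge p X S hp ω)
      have hR := h.trans_le (q_ge p X R hp ω)
      have hU := h.trans_le (q_ge p X (S ∪ R) hp ω)
      have hV := h.trans_le (q_ge p X (S ∩ R) hp ω)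
      have h2 := Real.log_le_sub_one_of_pos (x := q p X S ω * q p X R ω /
        (q p X (S ∪ R) ω * q p X (S ∩ R) ω)) (by positivity)
      rw [Real.log_div (by positivity) (by positivity), Real.log_mul hS.ne' hR.ne',
        Real.log_mul hU.ne' hV.ne'] at h2
      have h3 := mul_le_mul_of_nonneg_left h2 h.le
      linarith
  rw [Finset.sum_sub_distrib] at h1
  have h2 := key p X S R hp
  have h3 : ∑ ω, p ω * (Real.log (q p X S ω) + Real.log (q p X R ω) -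
      Real.log (q p X (S ∪ R) ω) - Real.log (q p X (S ∩ R) ω)) =
      ∑ ω, p ω * Real.log (q p X S ω) + ∑ ω, p ω * Real.log (q p X R ω) -
      ∑ ω, p ω * Real.log (q p X (S ∪ R) ω) - ∑ ω, p ω * Real.log (q p X (S ∩ R) ω) := by
    rw [← Finset.sum_add_distrib, ← Finset.sum_sub_distrib, ← Finset.sum_sub_distrib]
    exact Finset.sum_congr rfl fun ω _ => by ring
  simp only [hh_eq]
  linarith

end Pool.Agent.N372.EN
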