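import Mathlib

/-!
Project EN (MP_4da6ae_lc): the cone of linear information inequalities for four random
variables is not semialgebraic.  Definitions and the statements of the leaves.
-/

set_option autoImplicit false

namespace Pool.Agent.N372.EN

/-- The entropy of the variables `X i`, `i ∈ S`, under the weights `p`
(the expression of the frozen statement). -/
noncomputable def hh {ι Ω T : Type} [Fintype Ω] [DecidableEq T] (p : Ω → ℝ)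
    (X : ι → Ω → T) (S : Finset ι) : ℝ :=
  -∑ ω, p ω * Real.log (∑ ω', if (∀ i ∈ S, X i ω' = X i ω) then p ω' else 0)

/-- The entropy of one variable `U` (of any type). -/
noncomputable def ent {Ω T : Type} [Fintype Ω] [DecidableEq T] (p : Ω → ℝ)
    (U : Ω → T) : ℝ :=
  -∑ ω, p ω * Real.log (∑ ω', if U ω' = U ω then p ω' else 0)

/-- Submodularity of entropy. -/
def S_SM : Prop :=
  ∀ (ι Ω T : Type) [DecidableEq ι] [Fintype Ω] [DecidableEq T] (p : Ω → ℝ)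
    (X : ι → Ω → T) (S R : Finset ι), (∀ ω, 0 ≤ p ω) →
    hh p X (S ∪ R) + hh p X (S ∩ R) ≤ hh p X S + hh p X R

/-- Monotonicity of entropy. -/
def S_MO : Prop :=
  ∀ (ι Ω T : Type) [Fintype Ω] [DecidableEq T] (p : Ω → ℝ)
    (X : ι → Ω → T) (S R : Finset ι), (∀ ω, 0 ≤ p ω) → S ⊆ R → hh p X S ≤ hh p X R

/-- Gluing of two finite probability spaces over a common variable (the copy lemma):
conditionally independent given the common variable `U`. -/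
def S_GLUE : Prop :=
  ∀ (Ω₁ Ω₂ T : Type) [Fintype Ω₁] [Fintype Ω₂] [DecidableEq Ω₁] [DecidableEq Ω₂]
    [DecidableEq T] (p₁ : Ω₁ → ℝ) (p₂ : Ω₂ → ℝ) (U₁ : Ω₁ → T) (U₂ : Ω₂ → T),
    (∀ ω, 0 ≤ p₁ ω) → (∀ ω, 0 ≤ p₂ ω) →
    (∀ t, (∑ ω, if U₁ ω = t then p₁ ω else 0) = ∑ ω, if U₂ ω = t then p₂ ω else 0) →
    ∃ w : Ω₁ × Ω₂ → ℝ,
      (∀ ω, 0 ≤ w ω) ∧
      (∀ ω₁, ∑ ω₂, w (ω₁, ω₂) = p₁ ω₁) ∧
      (∀ ω₂, ∑ ω₁, w (ω₁, ω₂) = p₂ ω₂) ∧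
      (∀ ω, w ω ≠ 0 → U₁ ω.1 = U₂ ω.2) ∧
      (∀ (α β : Type) [DecidableEq α] [DecidableEq β] (V₁ : Ω₁ → α) (V₂ : Ω₂ → β),
        (∀ ω ω', V₁ ω' = V₁ ω → U₁ ω' = U₁ ω) → (∀ ω ω', V₂ ω' = V₂ ω → U₂ ω' = U₂ ω) →
        ent w (fun ω => (V₁ ω.1, V₂ ω.2)) + ent p₁ U₁ = ent p₁ V₁ + ent p₂ V₂)

/-- The functional `f = I(a;b)`; indices `a = 0, b = 1, c = 2, d = 3`. -/
def fI (h : Finset (Fin 4) → ℝ) : ℝ := h {0} + h {1} - h {0, 1}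

/-- The functional `g = I(c;d) + I(c;d|a) + I(a;b|c) + I(a;b|d) + I(a;c|b) + I(a;d|b)`. -/
def gI (h : Finset (Fin 4) → ℝ) : ℝ :=
  (h {2} + h {3} - h {2, 3}) + (h {0, 2} + h {0, 3} - h {0, 2, 3} - h {0})
    + (h {0, 2} + h {1, 2} - h {0, 1, 2} - h {2})
    + (h {0, 3} + h {1, 3} - h {0, 1, 3} - h {3})
    + (h {0, 1} + h {1, 2} - h {0, 1, 2} - h {1})
    + (h {0, 1} + h {1, 3} - h {0, 1, 3} - h {1})

/-- The example: `c, d` independent bits, equal to one with probability `t`,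
`a = c ∧ d`, `b = c ∨ d`, `t → 0`. -/
def S_EX : Prop :=
  ∀ K : ℝ, ∃ (p : Fin 4 → ℝ) (X : Fin 4 → Fin 4 → Fin 4), (∀ ω, 0 ≤ p ω) ∧ ∑ ω, p ω = 1 ∧
    K * gI (hh p X) < fI (hh p X)

/-- The argument on semialgebraic sets in the plane. -/
def S_SEMI : Prop :=
  ∀ (n m : ℕ) (F : Fin n → Polynomial (Polynomial ℝ))
    (G : Fin n → Fin m → Polynomial (Polynomial ℝ)) (W : ℝ → ℝ → Prop),
    (∀ x y, W x y ↔ ∃ j, Polynomial.evalEval x y (F j) = 0 ∧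
      ∀ l, 0 < Polynomial.evalEval x y (G j l)) →
    (∀ x y y', y ≤ y' → W x y → W x y') →
    (∀ s : ℕ, ∃ e > 0, ∀ y < e, ¬ W (3 * (s : ℝ) + 2) y) →
    (∀ s : ℕ, W (3 * (s : ℝ) + 2) (2 * (1 / 2) ^ s)) → False

/-- The family of inequalities. -/
def S_FAM : Prop :=
  ∀ (Ω T : Type) [Fintype Ω] [DecidableEq Ω] [DecidableEq T] (p : Ω → ℝ) (X : Fin 4 → Ω → T),
    (∀ ω, 0 ≤ p ω) → ∑ ω, p ω = 1 → ∀ s : ℕ,
    fI (hh p X) ≤ (3 * (s : ℝ) + 2) * gI (hh p X) + 2 * (1 / 2) ^ s * hh p X {1}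

end Pool.Agent.N372.EN
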